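import Mathlib

/-!
Algebra for the tensor decomposition relative to a normal subgroup.
-/

set_option autoImplicit false
set_option linter.all false
set_option maxHeartbeats 4000000

open Matrix Polynomial Module

namespace Pool.Agent.H313.TD

section alg

variable {E : Type} [Field E] {n : ℕ}

theorem lin_idem {e : Matrix (Fin n) (Fin n) E} (he : IsIdempotentElem e) :
    IsIdempotentElem (Matrix.toLinAlgEquiv' e) := by
  show Matrix.toLinAlgEquiv' e * Matrix.toLinAlgEquiv' e = Matrix.toLinAlgEquiv' e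
  rw [← map_mul]
  exact congrArg _ he

theorem trace_lin (e : Matrix (Fin n) (Fin n) E) :
    LinearMap.trace E (Fin n → E) (Matrix.toLinAlgEquiv' e) = e.trace :=
  Matrix.trace_toLin'_eq e

theorem trace_idem_eq_zero [CharZero E] {e : Matrix (Fin n) (Fin n) E} (he : IsIdempotentElem e)
    (h : e.trace = 0) : e = 0 := by
  have h1 := (LinearMap.IsIdempotentElem.trace_eq_zero_iff (lin_idem he)).1
    (by rw [trace_lin]; exact h)
  exact (map_eq_zero_iff _ Matrix.toLinAlgEquiv'.injective).1 h1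

theorem trace_idem_nat {e : Matrix (Fin n) (Fin n) E} (he : IsIdempotentElem e) :
    ∃ k : ℕ, k ≤ n ∧ e.trace = (k : E) := by
  refine ⟨finrank E (LinearMap.range (Matrix.toLinAlgEquiv' e)), ?_, ?_⟩
  · refine (Submodule.finrank_le _).trans ?_
    rw [Module.finrank_fin_fun]
  · rw [← trace_lin]
    exact (LinearMap.IsIdempotentElem.isProj_range _ (lin_idem he)).trace

theorem isUnit_of_left {A B : Matrix (Fin n) (Fin n) E} (h : A * B = 1) : IsUnit B := by
  rw [Matrix.isUnit_iff_isUnit_det]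
  have h1 := congrArg Matrix.det h
  rw [Matrix.det_mul, Matrix.det_one] at h1
  exact IsUnit.of_mul_eq_one_right _ h1

/-- the projection onto a generalized eigenspace, as a multiple of a given polynomial -/
theorem exists_idem (T : Matrix (Fin n) (Fin n) E) (c : E)
    (hc : ¬ IsUnit (T - c • (1 : Matrix (Fin n) (Fin n) E))) (s : E[X]) (hs : s.eval c ≠ 0) :
    ∃ p : E[X], s ∣ p ∧ IsIdempotentElem (aeval T p) ∧ aeval T p ≠ 0 ∧
      (aeval T p = 1 → IsNilpotent (T - c • (1 : Matrix (Fin n) (Fin n) E))) := by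
  have hTc : aeval T (X - C c) = T - c • (1 : Matrix (Fin n) (Fin n) E) := by
    rw [map_sub, aeval_X, aeval_C, Algebra.algebraMap_eq_smul_one]
  have hq0 : T.charpoly * s ≠ 0 := by
    refine mul_ne_zero (Matrix.charpoly_monic T).ne_zero ?_
    rintro rfl
    exact hs (by rw [eval_zero])
  have hroot : (T.charpoly * s).IsRoot c := by
    have h1 : T.charpoly.eval c = 0 := by
      rw [Matrix.eval_charpoly]
      by_contra h
      apply hc
      have h2 : IsUnit (Matrix.scalar (Fin n) c - T) := by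
        rw [Matrix.isUnit_iff_isUnit_det]
        exact isUnit_iff_ne_zero.2 h
      have h3 : T - c • (1 : Matrix (Fin n) (Fin n) E) = -(Matrix.scalar (Fin n) c - T) := by
        rw [neg_sub, Matrix.smul_one_eq_diagonal]
        rfl
      rw [h3]
      exact h2.neg
    rw [IsRoot.def, eval_mul, h1, zero_mul]
  obtain ⟨r, hr1, hr2⟩ := exists_eq_pow_rootMultiplicity_mul_and_not_dvd _ hq0 c
  set k := (T.charpoly * s).rootMultiplicity c with hk
  have hk1 : 0 < k := (rootMultiplicity_pos hq0).2 hroot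
  have hirr : Irreducible (X - C c) := irreducible_X_sub_C c
  have hcop : IsCoprime ((X - C c) ^ k) r :=
    IsCoprime.pow_left ((hirr.coprime_iff_not_dvd).2 hr2)
  have hcops : IsCoprime ((X - C c) ^ k) s := by
    refine IsCoprime.pow_left ((hirr.coprime_iff_not_dvd).2 ?_)
    rw [dvd_iff_isRoot]
    exact hs
  have hsr : s ∣ r := hcops.symm.dvd_of_dvd_mul_left ⟨T.charpoly, by rw [← hr1]; ring⟩
  obtain ⟨a, b, hab⟩ := hcop
  have hkill : aeval T ((X - C c) ^ k * r) = 0 := by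
    rw [← hr1, map_mul, Matrix.aeval_self_charpoly, zero_mul]
  have hsum : aeval T (b * r) = 1 - aeval T (a * (X - C c) ^ k) := by
    rw [eq_sub_iff_add_eq, ← map_add, add_comm, hab, map_one]
  refine ⟨b * r, hsr.mul_left b, ?_, ?_, ?_⟩
  · show aeval T (b * r) * aeval T (b * r) = aeval T (b * r)
    have h1 : aeval T (b * r) * aeval T (a * (X - C c) ^ k) = 0 := by
      rw [← map_mul, show b * r * (a * (X - C c) ^ k) = b * a * ((X - C c) ^ k * r) by ring,
        map_mul, hkill, mul_zero]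
    nth_rewrite 2 [hsum]
    rw [mul_sub, mul_one, h1, sub_zero]
  · intro h0
    rw [h0] at hsum
    have h1 : aeval T (a * (X - C c) ^ k) = 1 := (sub_eq_zero.1 hsum.symm).symm
    obtain ⟨k', hk'⟩ := Nat.exists_eq_succ_of_ne_zero hk1.ne'
    rw [hk', pow_succ, ← mul_assoc, map_mul, hTc] at h1
    exact hc (isUnit_of_left h1)
  · intro h1
    refine ⟨k, ?_⟩
    rw [← hTc, ← map_pow]
    have h2 : aeval T ((X - C c) ^ k) * aeval T (b * r) = 0 := by
      rw [← map_mul, show (X - C c) ^ k * (b * r) = b * ((X - C c) ^ k * r) by ring, map_mul,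
        hkill, mul_zero]
    rwa [h1, mul_one] at h2

theorem trace_nilpotent {T : Matrix (Fin n) (Fin n) E} (h : IsNilpotent T) : T.trace = 0 :=
  (Matrix.isNilpotent_trace_of_isNilpotent h).eq_zero

end alg

section rep

variable {E : Type} [Field E] {n : ℕ} {G : Type} [Group G] (ρ : G →* GL (Fin n) E)

/-- the underlying matrix -/
abbrev mat (g : G) : Matrix (Fin n) (Fin n) E := (ρ g : Matrix (Fin n) (Fin n) E)

theorem mat_mul (g h : G) : mat ρ (g * h) = mat ρ g * mat ρ h := by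
  rw [mat, map_mul]
  rfl

theorem mat_one : mat ρ 1 = 1 := by
  rw [mat, map_one]
  rfl

theorem mat_mul_inv (g : G) : mat ρ g * mat ρ g⁻¹ = 1 := by
  rw [← mat_mul, mul_inv_cancel, mat_one]

theorem mat_inv_mul (g : G) : mat ρ g⁻¹ * mat ρ g = 1 := by
  rw [← mat_mul, inv_mul_cancel, mat_one]

/-- a subalgebra normalized by the group -/
structure NA (S : Submodule E (Matrix (Fin n) (Fin n) E)) : Prop where
  one : (1 : Matrix (Fin n) (Fin n) E) ∈ S
  mul : ∀ a ∈ S, ∀ b ∈ S, a * b ∈ S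
  conj : ∀ g, ∀ a ∈ S, mat ρ g * a * mat ρ g⁻¹ ∈ S

/-- irreducible on the subgroup -/
def Irr (U : Subgroup G) : Prop := ∀ W : Submodule E (Fin n → E),
  (∀ u ∈ U, ∀ w ∈ W, mat ρ u *ᵥ w ∈ W) → W = ⊥ ∨ W = ⊤

/-- the span of the matrices of a subgroup -/
def Sp (M : Subgroup G) : Submodule E (Matrix (Fin n) (Fin n) E) :=
  Submodule.span E (mat ρ '' M)

variable {ρ}

theorem NA.aeval {S : Submodule E (Matrix (Fin n) (Fin n) E)} (hS : NA ρ S)
    {a : Matrix (Fin n) (Fin n) E} (ha : a ∈ S) (p : E[X]) : Polynomial.aeval a p ∈ S := by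
  induction p using Polynomial.induction_on' with
  | add p q hp hq => rw [map_add]; exact S.add_mem hp hq
  | monomial k c =>
    rw [aeval_monomial, Algebra.algebraMap_eq_smul_one, smul_mul_assoc, one_mul]
    refine S.smul_mem _ ?_
    induction k with
    | zero => rw [pow_zero]; exact hS.one
    | succ k ih => rw [pow_succ]; exact hS.mul _ ih _ ha

theorem Sp_mono {M M' : Subgroup G} (h : M ≤ M') : Sp ρ M ≤ Sp ρ M' :=
  Submodule.span_mono (Set.image_mono h)

theorem mem_Sp {M : Subgroup G} {h : G} (hh : h ∈ M) : mat ρ h ∈ Sp ρ M :=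
  Submodule.subset_span ⟨h, hh, rfl⟩

theorem Sp_NA (M : Subgroup G) (hM : M.Normal) : NA ρ (Sp ρ M) := by
  refine ⟨?_, ?_, ?_⟩
  · rw [← mat_one ρ]
    exact mem_Sp M.one_mem
  · intro a ha b hb
    refine Submodule.span_induction (p := fun a _ => a * b ∈ Sp ρ M) ?_ ?_ ?_ ?_ ha
    · rintro _ ⟨g, hg, rfl⟩
      refine Submodule.span_induction (p := fun b _ => mat ρ g * b ∈ Sp ρ M) ?_ ?_ ?_ ?_ hb
      · rintro _ ⟨h, hh, rfl⟩
        rw [← mat_mul]
        exact mem_Sp (M.mul_mem hg hh)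
      · rw [mul_zero]; exact Submodule.zero_mem _
      · intro x y _ _ hx hy
        rw [mul_add]
        exact Submodule.add_mem _ hx hy
      · intro c x _ hx
        rw [mul_smul_comm]
        exact Submodule.smul_mem _ _ hx
    · rw [zero_mul]; exact Submodule.zero_mem _
    · intro x y _ _ hx hy
      rw [add_mul]
      exact Submodule.add_mem _ hx hy
    · intro c x _ hx
      rw [smul_mul_assoc]
      exact Submodule.smul_mem _ _ hx
  · intro g a ha
    refine Submodule.span_induction (p := fun a _ => mat ρ g * a * mat ρ g⁻¹ ∈ Sp ρ M)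
      ?_ ?_ ?_ ?_ ha
    · rintro _ ⟨h, hh, rfl⟩
      rw [← mat_mul, ← mat_mul]
      exact mem_Sp (hM.conj_mem h hh g)
    · rw [mul_zero, zero_mul]; exact Submodule.zero_mem _
    · intro x y _ _ hx hy
      rw [mul_add, add_mul]
      exact Submodule.add_mem _ hx hy
    · intro c x _ hx
      rw [mul_smul_comm, smul_mul_assoc]
      exact Submodule.smul_mem _ _ hx

/-- a minimal nonzero stable subspace -/
theorem exists_min (hn : 0 < n) (S : Submodule E (Matrix (Fin n) (Fin n) E)) :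
    ∃ A : Submodule E (Fin n → E), A ≠ ⊥ ∧ (∀ a ∈ S, ∀ w ∈ A, a *ᵥ w ∈ A) ∧
      ∀ W : Submodule E (Fin n → E), W ≤ A → (∀ a ∈ S, ∀ w ∈ W, a *ᵥ w ∈ W) → W ≠ ⊥ → W = A := by
  classical
  have hex : ∃ k : ℕ, ∃ A : Submodule E (Fin n → E), A ≠ ⊥ ∧ (∀ a ∈ S, ∀ w ∈ A, a *ᵥ w ∈ A) ∧
      finrank E A = k := by
    refine ⟨_, ⊤, ?_, fun _ _ _ _ => trivial, rfl⟩
    haveI : Nonempty (Fin n) := ⟨⟨0, hn⟩⟩
    exact top_ne_bot
  obtain ⟨A, hA1, hA2, hA3⟩ := Nat.find_spec hex
  refine ⟨A, hA1, hA2, fun W hWA hW hW0 => ?_⟩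
  have h1 : ¬ finrank E W < finrank E A := by
    intro h
    rw [hA3] at h
    exact Nat.find_min hex h ⟨W, hW0, hW, rfl⟩
  exact Submodule.eq_of_le_of_finrank_le hWA (not_lt.1 h1)

/-- the trace form is nondegenerate -/
theorem trace_nondeg [CharZero E] (hirr : Irr ρ ⊤) {S : Submodule E (Matrix (Fin n) (Fin n) E)}
    (hS : NA ρ S) {a : Matrix (Fin n) (Fin n) E} (ha : a ∈ S)
    (hat : ∀ b ∈ S, (a * b).trace = 0) : a = 0 := by
  rcases Nat.eq_zero_or_pos n with hn0 | hn
  · subst hn0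
    ext i
    exact i.elim0
  let J : Submodule E (Matrix (Fin n) (Fin n) E) :=
    { carrier := {j | j ∈ S ∧ ∀ b ∈ S, (j * b).trace = 0}
      add_mem' := by
        rintro x y ⟨hx, hx'⟩ ⟨hy, hy'⟩
        refine ⟨S.add_mem hx hy, fun b hb => ?_⟩
        rw [add_mul, Matrix.trace_add, hx' b hb, hy' b hb, add_zero]
      zero_mem' := ⟨S.zero_mem, fun b _ => by rw [zero_mul, Matrix.trace_zero]⟩
      smul_mem' := by
        rintro c x ⟨hx, hx'⟩
        refine ⟨S.smul_mem c hx, fun b hb => ?_⟩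
        rw [smul_mul_assoc, Matrix.trace_smul, hx' b hb, smul_zero] }
  have hJr : ∀ j ∈ J, ∀ b ∈ S, j * b ∈ J := by
    rintro j ⟨hj, hj'⟩ b hb
    refine ⟨hS.mul _ hj _ hb, fun d hd => ?_⟩
    rw [mul_assoc]
    exact hj' _ (hS.mul _ hb _ hd)
  have hJl : ∀ j ∈ J, ∀ b ∈ S, b * j ∈ J := by
    rintro j ⟨hj, hj'⟩ b hb
    refine ⟨hS.mul _ hb _ hj, fun d hd => ?_⟩
    rw [mul_assoc, Matrix.trace_mul_comm, mul_assoc]
    exact hj' _ (hS.mul _ hd _ hb)
  have hJc : ∀ g, ∀ j ∈ J, mat ρ g * j * mat ρ g⁻¹ ∈ J := by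
    rintro g j ⟨hj, hj'⟩
    refine ⟨hS.conj g j hj, fun d hd => ?_⟩
    have h1 := hj' _ (hS.conj g⁻¹ d hd)
    rw [inv_inv] at h1
    rw [mul_assoc, mul_assoc, Matrix.trace_mul_comm]
    rw [← mul_assoc, ← mul_assoc] at h1
    rw [← h1]
    congr 1
    simp only [mul_assoc]
  obtain ⟨A, hA1, hA2, hA3⟩ := exists_min hn S
  have hJA : ∀ j ∈ J, ∀ w ∈ A, j *ᵥ w = 0 := by
    intro j hj w hw
    by_contra hne
    let W : Submodule E (Fin n → E) :=
      { carrier := {v | ∃ j ∈ J, v = j *ᵥ w}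
        add_mem' := by
          rintro _ _ ⟨x, hx, rfl⟩ ⟨y, hy, rfl⟩
          exact ⟨x + y, J.add_mem hx hy, (Matrix.add_mulVec _ _ _).symm⟩
        zero_mem' := ⟨0, J.zero_mem, (Matrix.zero_mulVec _).symm⟩
        smul_mem' := by
          rintro c _ ⟨x, hx, rfl⟩
          exact ⟨c • x, J.smul_mem c hx, (Matrix.smul_mulVec _ _ _).symm⟩ }
    have hWA : W = A := by
      refine hA3 W ?_ ?_ ?_
      · rintro _ ⟨x, hx, rfl⟩
        exact hA2 x hx.1 w hw
      · rintro b hb _ ⟨x, hx, rfl⟩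
        exact ⟨b * x, hJl x hx b hb, Matrix.mulVec_mulVec _ _ _⟩
      · intro h0
        have h1 : j *ᵥ w ∈ W := ⟨j, hj, rfl⟩
        rw [h0, Submodule.mem_bot] at h1
        exact hne h1
    have hwW : w ∈ W := by
      rw [hWA]
      exact hw
    obtain ⟨j1, hj1, hw1⟩ := hwW
    have hw0 : w ≠ 0 := by
      rintro rfl
      exact hne (Matrix.mulVec_zero _)
    obtain ⟨p, hp1, hp2, hp3, -⟩ := exists_idem j1 1 (by
      intro hu
      obtain ⟨v, hv⟩ := hu
      apply hw0
      have h1 : (v : Matrix (Fin n) (Fin n) E) *ᵥ w = 0 := by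
        rw [hv, Matrix.sub_mulVec, ← hw1, Matrix.smul_mulVec, Matrix.one_mulVec, one_smul,
          sub_self]
      have h2 : ((v⁻¹ : (Matrix (Fin n) (Fin n) E)ˣ) : Matrix (Fin n) (Fin n) E) *ᵥ
          ((v : Matrix (Fin n) (Fin n) E) *ᵥ w) = w := by
        rw [Matrix.mulVec_mulVec, Units.inv_mul, Matrix.one_mulVec]
      rw [← h2, h1, Matrix.mulVec_zero]) X (by rw [eval_X]; exact one_ne_zero)
    apply hp3
    refine trace_idem_eq_zero hp2 ?_
    obtain ⟨p', rfl⟩ := hp1
    rw [map_mul, aeval_X]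
    exact hj1.2 _ (hS.aeval hj1.1 p')
  let W : Submodule E (Fin n → E) :=
    { carrier := {v | ∀ j ∈ J, j *ᵥ v = 0}
      add_mem' := by
        intro x y hx hy j hj
        rw [Matrix.mulVec_add, hx j hj, hy j hj, add_zero]
      zero_mem' := fun j _ => Matrix.mulVec_zero _
      smul_mem' := by
        intro c x hx j hj
        rw [Matrix.mulVec_smul, hx j hj, smul_zero] }
  have hW : W = ⊤ := by
    refine (hirr W ?_).resolve_left ?_
    · intro g _ v hv j hj
      have h1 := hv _ (hJc g⁻¹ j hj)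
      rw [inv_inv] at h1
      have h2 : j *ᵥ (mat ρ g *ᵥ v) = mat ρ g *ᵥ ((mat ρ g⁻¹ * j * mat ρ g) *ᵥ v) := by
        rw [Matrix.mulVec_mulVec, Matrix.mulVec_mulVec, ← mul_assoc, ← mul_assoc, mat_mul_inv,
          one_mul]
      rw [h2, h1, Matrix.mulVec_zero]
    · intro h0
      apply hA1
      rw [Submodule.eq_bot_iff]
      intro w hw
      have h1 : w ∈ W := fun j hj => hJA j hj w hw
      rw [h0] at h1
      exact (Submodule.mem_bot E).1 h1
  have h2 : ∀ v, a *ᵥ v = 0 := by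
    intro v
    have h3 : v ∈ W := by rw [hW]; trivial
    exact h3 a ⟨ha, hat⟩
  ext i j
  have h3 := congrFun (h2 (Pi.single j 1)) i
  rw [Matrix.mulVec_single_one] at h3
  exact h3

end rep

end Pool.Agent.H313.TD
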