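import Pool.Agent.H313.TD.Roots

/-!
The decomposition and its corollaries.
-/

set_option autoImplicit false
set_option linter.all false
set_option maxHeartbeats 4000000

open Matrix Topology Filter Kronecker

namespace Pool.Agent.H313.TD.Cor

section defs

variable {G : Type} [Group G] {E : Type} [Field E] {n : ℕ}

/-- the matrix of `ρ g` -/
abbrev matrixOf (ρ : G →* GL (Fin n) E) (g : G) : Matrix (Fin n) (Fin n) E :=
  (ρ g : Matrix (Fin n) (Fin n) E)

/-- The restriction of `ρ` to the subgroup `M` has no stable subspaces except zero and everything. -/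
def IrreducibleOn (ρ : G →* GL (Fin n) E) (M : Subgroup G) : Prop :=
  ∀ W : Submodule E (Fin n → E), (∀ h ∈ M, ∀ w ∈ W, matrixOf ρ h *ᵥ w ∈ W) → W = ⊥ ∨ W = ⊤

/-- The restriction of `ρ` to `M ∩ U` is irreducible for all open subgroups `U`. -/
def LieIrreducibleOn [TopologicalSpace G] (ρ : G →* GL (Fin n) E) (M : Subgroup G) : Prop :=
  ∀ U : Subgroup G, IsOpen (U : Set G) → IrreducibleOn ρ (M ⊓ U)

/-- `ρ` is trivial on `N ∩ U` for some open subgroup `U`. -/
def ComesFromBase [TopologicalSpace G] (ρ : G →* GL (Fin n) E) (N : Subgroup G) : Prop :=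
  ∃ U : Subgroup G, IsOpen (U : Set G) ∧ ∀ h ∈ N ⊓ U, ρ h = 1

/-- The determinants of the `ρ g` are `M`-th roots of unity for some `M > 0`. -/
def HasFiniteDet (ρ : G →* GL (Fin n) E) : Prop :=
  ∃ M : ℕ, 0 < M ∧ ∀ g, (matrixOf ρ g).det ^ M = 1

/-- The restriction of `ρ` to `U` is isomorphic to the tensor product `B ⊗ A`. -/
def IsTensorProduct {m a : ℕ} (ρ : G →* GL (Fin n) E) (U : Subgroup G) (B : U →* GL (Fin m) E)
    (A : U →* GL (Fin a) E) : Prop :=
  ∃ (P : Matrix (Fin n) (Fin m × Fin a) E) (Q : Matrix (Fin m × Fin a) (Fin n) E),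
    P * Q = 1 ∧ Q * P = 1 ∧ ∀ u : U, matrixOf ρ u = P * (matrixOf B u ⊗ₖ matrixOf A u) * Q

/-- On some open subgroup `U`, `ρ` is a tensor product `B ⊗ A` of continuous representations
which are trivial on the kernel of `ρ`, `B` is trivial on `N ∩ U` and irreducible on all open
subgroups, `A` is irreducible on the intersections of `N` and the open subgroups of `U`, and the
determinants have finite order. -/
def HasDecomposition [TopologicalSpace G] [TopologicalSpace E] (ρ : G →* GL (Fin n) E)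
    (N : Subgroup G) : Prop :=
  ∃ (U : Subgroup G) (m a : ℕ) (A : U →* GL (Fin a) E) (B : U →* GL (Fin m) E),
    IsOpen (U : Set G) ∧ m * a = n ∧ IsTensorProduct ρ U B A ∧ Continuous A ∧ Continuous B ∧
    (∀ u : U, (u : G) ∈ N → B u = 1) ∧
    LieIrreducibleOn A (N.subgroupOf U) ∧ LieIrreducibleOn B ⊤ ∧
    (∀ u : U, ρ u = 1 → A u = 1 ∧ B u = 1) ∧
    (∀ u : U, (matrixOf A u).det ^ m = 1 ∧ (matrixOf B u).det ^ a = 1)

/-- For some open subgroup `U`, the restriction of `ρ` to `N ∩ U` has an eigenvector. -/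
def HasLine [TopologicalSpace G] (ρ : G →* GL (Fin n) E) (N : Subgroup G) : Prop :=
  ∃ v : Fin n → E, v ≠ 0 ∧ ∃ U : Subgroup G, IsOpen (U : Set G) ∧
    ∀ h ∈ N ⊓ U, ∃ c : E, matrixOf ρ h *ᵥ v = c • v

end defs


theorem full {G : Type} [Group G] [TopologicalSpace G] [IsTopologicalGroup G]
    (hb : Pool.Agent.H313.TD.Basis1 G) (N : Subgroup G) (hN : N.Normal)
    {E : Type} [Field E] [TopologicalSpace E] [IsTopologicalDivisionRing E] [T2Space E]
    [CharZero E] [IsAlgClosed E] {n : ℕ} (hn : 0 < n)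
    (hroots : ∀ W ∈ 𝓝 (1 : E), ∃ W' ∈ 𝓝 (1 : E), ∀ x ∈ W', ∃ y ∈ W, y ^ n = x)
    (ρ : G →* GL (Fin n) E) (hρ : Continuous ρ) (hlie : LieIrreducibleOn ρ ⊤)
    (hfin : HasFiniteDet ρ) :
    HasDecomposition ρ N ∧ (HasLine ρ N → ComesFromBase ρ N) ∧
      (n.Prime → LieIrreducibleOn ρ N ∨ ComesFromBase ρ N) := by
  obtain ⟨M, hM, hdet⟩ := hfin
  have hlie' : Pool.Agent.H313.TD.LieIrr ρ := by
    intro U hU W hW
    exact hlie U hU W fun h hh w hw => hW h hh.2 w hw
  obtain ⟨U, m, a, P, Q, A, B, hUo, hm0, ha0, hma, hAc, hBc, hPQ, hQP, hρAB, hBN, hAirr, hBirr,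
    hker, hdets, hline⟩ := Pool.Agent.H313.TD.main hb N hN ρ hρ hlie' hn hroots M hM hdet
  have htriv : a = 1 → ComesFromBase ρ N := by
    intro ha1
    subst ha1
    rw [mul_one] at hma
    obtain ⟨O, hO, hO1⟩ := Pool.Agent.H313.TD.exists_nhd (E := E) hn
    have h1O : (1 : Matrix (Fin n) (Fin n) E) ∈ O := mem_of_mem_nhds hO
    have hρm : Continuous fun g => matrixOf ρ g := Units.continuous_val.comp hρ
    have hnear : ∀ᶠ g in 𝓝 (1 : G), g ∈ U ∧ matrixOf ρ g ∈ O := by
      have h1 : ∀ᶠ g in 𝓝 (1 : G), matrixOf ρ g ∈ O := by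
        refine hρm.continuousAt.eventually ?_
        show O ∈ 𝓝 (matrixOf ρ 1)
        have h2 : matrixOf ρ 1 = 1 := Pool.Agent.H313.TD.mat_one ρ
        rw [h2]
        exact hO
      filter_upwards [h1, hUo.mem_nhds U.one_mem] with g h2 h3
      exact ⟨h3, h2⟩
    obtain ⟨T, hT1, hT2, hT3⟩ := mem_nhds_iff.1 hnear
    obtain ⟨V, -, hVo, hV⟩ := hb T hT2 hT3
    refine ⟨V, hVo, ?_⟩
    rintro h ⟨hh1, hh2⟩
    obtain ⟨hhU, hhO⟩ := hT1 (hV hh2)
    have h1 := hρAB ⟨h, hhU⟩
    rw [hBN ⟨h, hhU⟩ hh1] at h1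
    set α : E := matrixOf A ⟨h, hhU⟩ 0 0 with hα
    have h2 : (A ⟨h, hhU⟩ : Matrix (Fin 1) (Fin 1) E) = α • 1 := by
      ext i j
      rw [Subsingleton.elim i 0, Subsingleton.elim j 0, Matrix.smul_apply, Matrix.one_apply_eq,
        smul_eq_mul, mul_one]
    have h3 : matrixOf ρ h = α • (1 : Matrix (Fin n) (Fin n) E) := by
      have h4 : Pool.Agent.H313.TD.mat ρ h = matrixOf ρ h := rfl
      rw [← h4]
      refine h1.trans ?_
      rw [h2, Units.val_one, Matrix.kronecker_smul, Matrix.one_kronecker_one, Matrix.mul_smul,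
        Matrix.mul_one, Matrix.smul_mul, hPQ]
    have h5 : α ^ n = 1 := by
      have h6 := (hdets ⟨h, hhU⟩).1
      rw [h2, Matrix.det_smul, Matrix.det_one, Fintype.card_fin, pow_one, mul_one, hma] at h6
      exact h6
    have h7 : α = 1 := hO1 _ hhO _ h1O _ h1O α h5 (by rw [mul_one]; exact h3)
    apply Units.ext
    show matrixOf ρ h = 1
    rw [h3, h7, one_smul]
  refine ⟨⟨U, m, a, A, B, hUo, hma, ⟨P, Q, hPQ, hQP, hρAB⟩, hAc, hBc, hBN, ?_, ?_, hker, hdets⟩,
    ?_, ?_⟩
  · intro V hV W hW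
    have hVo : IsOpen ((V.map U.subtype : Subgroup G) : Set G) := by
      rw [Subgroup.coe_map]
      exact hUo.isOpenMap_subtype_val _ hV
    refine hAirr (V.map U.subtype) hVo W fun u hu1 hu2 w hw => ?_
    obtain ⟨u', hu', huu⟩ := hu2
    have h1 : u' = u := Subtype.ext huu
    rw [h1] at hu'
    exact hW u ⟨hu1, hu'⟩ w hw
  · intro V hV W hW
    have hVo : IsOpen ((V.map U.subtype : Subgroup G) : Set G) := by
      rw [Subgroup.coe_map]
      exact hUo.isOpenMap_subtype_val _ hV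
    refine hBirr (V.map U.subtype) hVo W fun u hu2 w hw => ?_
    obtain ⟨u', hu', huu⟩ := hu2
    have h1 : u' = u := Subtype.ext huu
    rw [h1] at hu'
    exact hW u ⟨trivial, hu'⟩ w hw
  · rintro ⟨v, hv, U', hU', h⟩
    exact htriv (hline v hv U' hU' h)
  · intro hp
    rcases (Nat.dvd_prime hp).1 (Dvd.intro_left m hma) with h | h
    · exact Or.inr (htriv h)
    · left
      have hm1 : m = 1 := by
        rw [h] at hma
        exact Nat.eq_of_mul_eq_mul_right hn (by rw [hma, one_mul])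
      subst hm1
      intro U' hU' W hW
      let T : (Fin a → E) →ₗ[E] (Fin n → E) :=
        (Matrix.mulVecLin P).comp (LinearMap.funLeft E E (Prod.snd : Fin 1 × Fin a → Fin a))
      have hT : ∀ w, T w = P *ᵥ fun p => w p.2 := fun w => rfl
      have hTs : ∀ v, ∃ w, T w = v := by
        intro v
        refine ⟨fun j => (Q *ᵥ v) (0, j), ?_⟩
        rw [hT]
        have h1 : (fun p : Fin 1 × Fin a => (Q *ᵥ v) (0, p.2)) = Q *ᵥ v := by
          funext p
          rw [Subsingleton.elim (0 : Fin 1) p.1]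
        show P *ᵥ (fun p : Fin 1 × Fin a => (Q *ᵥ v) (0, p.2)) = v
        rw [h1, Matrix.mulVec_mulVec, hPQ, Matrix.one_mulVec]
      have hTA : ∀ u : U, (u : G) ∈ N → ∀ w, T (matrixOf A u *ᵥ w) = matrixOf ρ u *ᵥ T w := by
        intro u hu w
        have h1 : matrixOf ρ u = P * (matrixOf B u ⊗ₖ matrixOf A u) * Q := hρAB u
        have h2 : matrixOf B u = 1 := by
          show ((B u : GL (Fin 1) E) : Matrix (Fin 1) (Fin 1) E) = 1
          rw [hBN u hu, Units.val_one]
        rw [h1, h2, hT, hT, Matrix.mulVec_mulVec, Matrix.mul_assoc, hQP, Matrix.mul_one,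
          ← Matrix.mulVec_mulVec]
        congr 1
        funext p
        obtain ⟨i, j⟩ := p
        show (∑ k, matrixOf A u j k * w k) = ∑ p : Fin 1 × Fin a,
          ((1 : Matrix (Fin 1) (Fin 1) E) ⊗ₖ matrixOf A u) (i, j) p * w p.2
        rw [Fintype.sum_prod_type, Finset.sum_eq_single i]
        · refine Finset.sum_congr rfl fun k _ => ?_
          rw [Matrix.kronecker_apply, Matrix.one_apply_eq, one_mul]
        · intro k _ hk
          exact absurd (Subsingleton.elim k i) hk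
        · intro h3
          exact absurd (Finset.mem_univ i) h3
      rcases hAirr U' hU' (W.comap T) (by
        intro u hu1 hu2 w hw
        show T (matrixOf A u *ᵥ w) ∈ W
        rw [hTA u hu1]
        exact hW u ⟨hu1, hu2⟩ _ hw) with h1 | h1
      · left
        rw [eq_bot_iff]
        intro v hv
        obtain ⟨w, rfl⟩ := hTs v
        have h2 : w ∈ W.comap T := hv
        rw [h1, Submodule.mem_bot] at h2
        rw [Submodule.mem_bot, h2, map_zero]
      · right
        rw [eq_top_iff]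
        intro v _
        obtain ⟨w, rfl⟩ := hTs v
        have h2 : w ∈ W.comap T := by rw [h1]; trivial
        exact h2

end Pool.Agent.H313.TD.Cor
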