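import Pool.Agent.H313.TD.Tensor

/-!
The main theorem: tensor decomposition relative to a normal subgroup.
-/

set_option autoImplicit false
set_option linter.all false
set_option maxHeartbeats 4000000

open Matrix Polynomial Module Topology Filter Kronecker

namespace Pool.Agent.H313.TD

variable {E : Type} [Field E] {n : ℕ} {G : Type} [Group G]
  [TopologicalSpace G] [IsTopologicalGroup G] [TopologicalSpace E]
  [IsTopologicalDivisionRing E] [T2Space E] [CharZero E] [IsAlgClosed E]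

omit [CharZero E] [IsAlgClosed E] in
theorem det_eventually (ρ : G →* GL (Fin n) E) (hρ : Continuous (mat ρ)) (M : ℕ) (hM : 0 < M)
    (hdet : ∀ g, (mat ρ g).det ^ M = 1) : ∀ᶠ g in 𝓝 (1 : G), (mat ρ g).det = 1 := by
  classical
  have hfin : {c : E | c ^ M = 1 ∧ c ≠ 1}.Finite := by
    refine (Multiset.finite_toSet (nthRoots M (1 : E))).subset ?_
    rintro c ⟨hc, -⟩
    exact (mem_nthRoots hM).2 hc
  have h1 : ∀ᶠ g in 𝓝 (1 : G), (mat ρ g).det ∈ {c : E | c ^ M = 1 ∧ c ≠ 1}ᶜ := by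
    refine (hρ.matrix_det).continuousAt.eventually (hfin.isClosed.isOpen_compl.mem_nhds ?_)
    show (mat ρ 1).det ∈ _
    rw [mat_one, Matrix.det_one]
    exact fun h => h.2 rfl
  filter_upwards [h1] with g hg
  by_contra hne
  exact hg ⟨hdet g, hne⟩

theorem main (hb : Basis1 G) (N : Subgroup G) (hN : N.Normal) (ρ : G →* GL (Fin n) E) (hρ : Continuous ρ)
    (hlie : LieIrr ρ) (hn : 0 < n)
    (hroots : ∀ W ∈ 𝓝 (1 : E), ∃ W' ∈ 𝓝 (1 : E), ∀ x ∈ W', ∃ y ∈ W, y ^ n = x)
    (M : ℕ) (hM : 0 < M) (hdetM : ∀ g, (mat ρ g).det ^ M = 1) :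
    ∃ (U : Subgroup G) (m a : ℕ) (P : Matrix (Fin n) (Fin m × Fin a) E)
      (Q : Matrix (Fin m × Fin a) (Fin n) E) (A : U →* GL (Fin a) E) (B : U →* GL (Fin m) E),
      IsOpen (U : Set G) ∧ 0 < m ∧ 0 < a ∧ m * a = n ∧ Continuous A ∧ Continuous B ∧
      P * Q = 1 ∧ Q * P = 1 ∧
      (∀ u : U, mat ρ u = P * ((B u : Matrix (Fin m) (Fin m) E) ⊗ₖ
        (A u : Matrix (Fin a) (Fin a) E)) * Q) ∧
      (∀ u : U, (u : G) ∈ N → B u = 1) ∧
      (∀ U' : Subgroup G, IsOpen (U' : Set G) → ∀ W : Submodule E (Fin a → E),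
        (∀ u : U, (u : G) ∈ N → (u : G) ∈ U' → ∀ w ∈ W,
          (A u : Matrix (Fin a) (Fin a) E) *ᵥ w ∈ W) → W = ⊥ ∨ W = ⊤) ∧
      (∀ U' : Subgroup G, IsOpen (U' : Set G) → ∀ W : Submodule E (Fin m → E),
        (∀ u : U, (u : G) ∈ U' → ∀ w ∈ W,
          (B u : Matrix (Fin m) (Fin m) E) *ᵥ w ∈ W) → W = ⊥ ∨ W = ⊤) ∧
      (∀ u : U, ρ u = 1 → A u = 1 ∧ B u = 1) ∧
      (∀ u : U, (A u : Matrix (Fin a) (Fin a) E).det ^ m = 1 ∧
        (B u : Matrix (Fin m) (Fin m) E).det ^ a = 1) ∧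
      (∀ v : Fin n → E, v ≠ 0 → ∀ U' : Subgroup G, IsOpen (U' : Set G) →
        (∀ h ∈ N ⊓ U', ∃ c : E, mat ρ h *ᵥ v = c • v) → a = 1) := by
  classical
  have hρm : Continuous (mat ρ) := Units.continuous_val.comp hρ
  obtain ⟨U, S, x, hUo, hS, hSle, hmemS, hcen, hxc, hxG, hxN, hx1, hUdet⟩ :=
    exists_split hb N hN hρm hlie hn hroots (det_eventually ρ hρm M hM hdetM)
  obtain ⟨m, a, P, Q, A, B, κ, hm0, ha0, hma, hPQ, hQP, hx, hy, hκi, hκx, hκm, hline⟩ :=
    tensor_alg hn (ρ.comp U.subtype) x S (fun u => (hxG u).mem) (fun u a ha => (hxG u).comm a ha)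
      (fun W hW => hlie U hUo W fun u hu w hw => hW ⟨u, hu⟩ w hw)
  have hinvx : ∀ u, Q * (x u : Matrix (Fin n) (Fin n) E) * P =
      (1 : Matrix (Fin m) (Fin m) E) ⊗ₖ (A u : Matrix (Fin a) (Fin a) E) := by
    intro u
    rw [hx u]
    calc Q * (P * ((1 : Matrix (Fin m) (Fin m) E) ⊗ₖ (A u : Matrix (Fin a) (Fin a) E)) * Q) * P =
        (Q * P) * ((1 : Matrix (Fin m) (Fin m) E) ⊗ₖ (A u : Matrix (Fin a) (Fin a) E)) * (Q * P) := by
          simp only [Matrix.mul_assoc]
      _ = _ := by rw [hQP, Matrix.one_mul, Matrix.mul_one]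
  let y : U → GL (Fin n) E := fun u => (x u)⁻¹ * ρ u
  have hy' : ∀ u, (y u : Matrix (Fin n) (Fin n) E) =
      P * ((B u : Matrix (Fin m) (Fin m) E) ⊗ₖ (1 : Matrix (Fin a) (Fin a) E)) * Q := hy
  have hinvy : ∀ u, Q * (y u : Matrix (Fin n) (Fin n) E) * P =
      (B u : Matrix (Fin m) (Fin m) E) ⊗ₖ (1 : Matrix (Fin a) (Fin a) E) := by
    intro u
    rw [hy' u]
    calc Q * (P * ((B u : Matrix (Fin m) (Fin m) E) ⊗ₖ (1 : Matrix (Fin a) (Fin a) E)) * Q) * P =
        (Q * P) * ((B u : Matrix (Fin m) (Fin m) E) ⊗ₖ (1 : Matrix (Fin a) (Fin a) E)) * (Q * P) := by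
          simp only [Matrix.mul_assoc]
      _ = _ := by rw [hQP, Matrix.one_mul, Matrix.mul_one]
  have hyc : Continuous fun u => (y u : Matrix (Fin n) (Fin n) E) := by
    have h1 : Continuous y := (hxc.inv).mul (hρ.comp continuous_subtype_val)
    exact Units.continuous_val.comp h1
  let i0 : Fin m := ⟨0, hm0⟩
  let j0 : Fin a := ⟨0, ha0⟩
  have hAc : Continuous A := by
    apply cont_of_val
    have h1 : (fun u => (A u : Matrix (Fin a) (Fin a) E)) = fun u => Matrix.of fun k j =>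
        (Q * (x u : Matrix (Fin n) (Fin n) E) * P) (i0, k) (i0, j) := by
      funext u
      ext k j
      rw [Matrix.of_apply, hinvx, Matrix.kronecker_apply, Matrix.one_apply_eq, one_mul]
    rw [h1]
    refine continuous_matrix fun k j => ?_
    have h2 : Continuous fun u => Q * (x u : Matrix (Fin n) (Fin n) E) * P :=
      (continuous_const.matrix_mul (Units.continuous_val.comp hxc)).matrix_mul continuous_const
    exact h2.matrix_elem _ _
  have hBc : Continuous B := by
    apply cont_of_val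
    have h1 : (fun u => (B u : Matrix (Fin m) (Fin m) E)) = fun u => Matrix.of fun k j =>
        (Q * (y u : Matrix (Fin n) (Fin n) E) * P) (k, j0) (j, j0) := by
      funext u
      ext k j
      rw [Matrix.of_apply, hinvy, Matrix.kronecker_apply, Matrix.one_apply_eq, mul_one]
    rw [h1]
    refine continuous_matrix fun k j => ?_
    have h2 : Continuous fun u => Q * (y u : Matrix (Fin n) (Fin n) E) * P :=
      (continuous_const.matrix_mul hyc).matrix_mul continuous_const
    exact h2.matrix_elem _ _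
  have hA1 : ∀ u, x u = 1 → A u = 1 := by
    intro u hu
    apply Units.ext
    ext k j
    have h1 := congrFun (congrFun (hinvx u) (i0, k)) (i0, j)
    rw [hu, Units.val_one, Matrix.mul_one, hQP, Matrix.kronecker_apply, Matrix.one_apply_eq,
      one_mul, Matrix.one_apply] at h1
    rw [← h1, Units.val_one, Matrix.one_apply]
    simp
  have hB1 : ∀ u, y u = 1 → B u = 1 := by
    intro u hu
    apply Units.ext
    ext k j
    have h1 := congrFun (congrFun (hinvy u) (k, j0)) (j, j0)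
    rw [hu, Units.val_one, Matrix.mul_one, hQP, Matrix.kronecker_apply, Matrix.one_apply_eq,
      mul_one, Matrix.one_apply] at h1
    rw [← h1, Units.val_one, Matrix.one_apply]
    simp
  have hstab : ∀ (U' : Subgroup G), IsOpen (U' : Set G) → ∀ W : Submodule E (Fin n → E),
      (∀ h ∈ N ⊓ U', ∀ w ∈ W, mat ρ h *ᵥ w ∈ W) → ∀ s ∈ S, ∀ w ∈ W, s *ᵥ w ∈ W := by
    intro U' hU' W hW s hs w hw
    refine Submodule.span_induction (p := fun s _ => s *ᵥ w ∈ W) ?_ ?_ ?_ ?_ (hSle U' hU' hs)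
    · rintro _ ⟨h, hh, rfl⟩
      exact hW h hh w hw
    · rw [Matrix.zero_mulVec]; exact W.zero_mem
    · intro p q _ _ hp hq
      rw [Matrix.add_mulVec]
      exact W.add_mem hp hq
    · intro c p _ hp
      rw [Matrix.smul_mulVec]
      exact W.smul_mem c hp
  refine ⟨U, m, a, P, Q, A, B, hUo, hm0, ha0, hma, hAc, hBc, hPQ, hQP, ?_, ?_, ?_, ?_, ?_, ?_, ?_⟩
  · intro u
    have h1 : mat ρ u = (x u : Matrix (Fin n) (Fin n) E) * (y u : Matrix (Fin n) (Fin n) E) := by
      rw [← Units.val_mul, mul_inv_cancel_left]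
    rw [h1, hx u, hy' u]
    calc P * ((1 : Matrix (Fin m) (Fin m) E) ⊗ₖ (A u : Matrix (Fin a) (Fin a) E)) * Q *
        (P * ((B u : Matrix (Fin m) (Fin m) E) ⊗ₖ (1 : Matrix (Fin a) (Fin a) E)) * Q) =
        P * ((1 : Matrix (Fin m) (Fin m) E) ⊗ₖ (A u : Matrix (Fin a) (Fin a) E)) * (Q * P) *
        ((B u : Matrix (Fin m) (Fin m) E) ⊗ₖ (1 : Matrix (Fin a) (Fin a) E)) * Q := by
          simp only [Matrix.mul_assoc]
      _ = P * (((1 : Matrix (Fin m) (Fin m) E) ⊗ₖ (A u : Matrix (Fin a) (Fin a) E)) *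
        ((B u : Matrix (Fin m) (Fin m) E) ⊗ₖ (1 : Matrix (Fin a) (Fin a) E))) * Q := by
          rw [hQP, Matrix.mul_one]
          simp only [Matrix.mul_assoc]
      _ = _ := by
          rw [← Matrix.mul_kronecker_mul, Matrix.one_mul, Matrix.mul_one]
  · intro u hu
    apply hB1
    show (x u)⁻¹ * ρ u = 1
    rw [hxN u hu, inv_mul_cancel]
  · intro U' hU' W hW
    have h1 := hκm (W.map κ) (LinearMap.map_le_range) (hstab (U' ⊓ U) (hU'.inter hUo) _ (by
      rintro h ⟨hh1, hh2, hh3⟩ _ ⟨w, hw, rfl⟩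
      have h2 : mat ρ h = (x ⟨h, hh3⟩ : Matrix (Fin n) (Fin n) E) := by
        rw [hxN ⟨h, hh3⟩ hh1]
      rw [h2, hκx]
      exact ⟨_, hW ⟨h, hh3⟩ hh1 hh2 w hw, rfl⟩))
    by_cases hW0 : W = ⊥
    · exact Or.inl hW0
    · right
      have h2 := h1 (by
        intro h3
        apply hW0
        rw [eq_bot_iff]
        intro w hw
        have h4 : κ w ∈ W.map κ := ⟨w, hw, rfl⟩
        rw [h3, Submodule.mem_bot] at h4
        rw [Submodule.mem_bot]
        exact hκi (by rw [h4, map_zero]))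
      rw [eq_top_iff]
      intro w _
      have h3 : κ w ∈ W.map κ := by
        rw [h2]
        exact ⟨w, rfl⟩
      obtain ⟨w', hw', hww⟩ := h3
      rw [← hκi hww]
      exact hw'
  · intro U' hU' W hW
    let Wh : Submodule E (Fin n → E) :=
      { carrier := {v | ∀ j, (fun i => (Q *ᵥ v) (i, j)) ∈ W}
        add_mem' := by
          intro v v' hv hv' j
          have h1 : (fun i => (Q *ᵥ (v + v')) (i, j)) =
              (fun i => (Q *ᵥ v) (i, j)) + fun i => (Q *ᵥ v') (i, j) := by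
            rw [Matrix.mulVec_add]
            rfl
          rw [h1]
          exact W.add_mem (hv j) (hv' j)
        zero_mem' := by
          intro j
          have h1 : (fun i => (Q *ᵥ (0 : Fin n → E)) (i, j)) = 0 := by
            rw [Matrix.mulVec_zero]
            rfl
          rw [h1]
          exact W.zero_mem
        smul_mem' := by
          intro c v hv j
          have h1 : (fun i => (Q *ᵥ (c • v)) (i, j)) = c • fun i => (Q *ᵥ v) (i, j) := by
            rw [Matrix.mulVec_smul]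
            rfl
          rw [h1]
          exact W.smul_mem c (hv j) }
    have hsec : ∀ w : Fin m → E, (Q *ᵥ (P *ᵥ fun p : Fin m × Fin a =>
        if p.2 = j0 then w p.1 else 0)) = fun p : Fin m × Fin a => if p.2 = j0 then w p.1 else 0 := by
      intro w
      rw [Matrix.mulVec_mulVec, hQP, Matrix.one_mulVec]
    rcases hlie (U ⊓ U') (hUo.inter hU') Wh (by
      rintro g ⟨hg, hg'⟩ v hv l
      have h1 : Q *ᵥ (mat ρ g *ᵥ v) = ((B ⟨g, hg⟩ : Matrix (Fin m) (Fin m) E) ⊗ₖ
          (A ⟨g, hg⟩ : Matrix (Fin a) (Fin a) E)) *ᵥ (Q *ᵥ v) := by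
        have h2 : mat ρ g = (x ⟨g, hg⟩ : Matrix (Fin n) (Fin n) E) *
            (y ⟨g, hg⟩ : Matrix (Fin n) (Fin n) E) := by
          rw [← Units.val_mul, mul_inv_cancel_left]
        rw [Matrix.mulVec_mulVec, Matrix.mulVec_mulVec]
        congr 1
        have h3 : ((B ⟨g, hg⟩ : Matrix (Fin m) (Fin m) E) ⊗ₖ
            (A ⟨g, hg⟩ : Matrix (Fin a) (Fin a) E)) =
            ((1 : Matrix (Fin m) (Fin m) E) ⊗ₖ (A ⟨g, hg⟩ : Matrix (Fin a) (Fin a) E)) *
            ((B ⟨g, hg⟩ : Matrix (Fin m) (Fin m) E) ⊗ₖ (1 : Matrix (Fin a) (Fin a) E)) := by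
          rw [← Matrix.mul_kronecker_mul, Matrix.one_mul, Matrix.mul_one]
        rw [h2, h3, ← hinvx, ← hinvy]
        calc Q * ((x ⟨g, hg⟩ : Matrix (Fin n) (Fin n) E) * (y ⟨g, hg⟩ : Matrix (Fin n) (Fin n) E)) =
            Q * (x ⟨g, hg⟩ : Matrix (Fin n) (Fin n) E) * (P * Q) *
              (y ⟨g, hg⟩ : Matrix (Fin n) (Fin n) E) * (P * Q) := by
              rw [hPQ, Matrix.mul_one, Matrix.mul_one, Matrix.mul_assoc]
          _ = _ := by simp only [Matrix.mul_assoc]
      have h2 : (fun k => (Q *ᵥ (mat ρ g *ᵥ v)) (k, l)) =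
          ∑ j, (A ⟨g, hg⟩ : Matrix (Fin a) (Fin a) E) l j •
            ((B ⟨g, hg⟩ : Matrix (Fin m) (Fin m) E) *ᵥ fun i => (Q *ᵥ v) (i, j)) := by
        funext k
        rw [h1, Finset.sum_apply]
        show ∑ p : Fin m × Fin a, ((B ⟨g, hg⟩ : Matrix (Fin m) (Fin m) E) ⊗ₖ
            (A ⟨g, hg⟩ : Matrix (Fin a) (Fin a) E)) (k, l) p * (Q *ᵥ v) p = _
        rw [Fintype.sum_prod_type, Finset.sum_comm]
        refine Finset.sum_congr rfl fun j _ => ?_
        rw [Pi.smul_apply, smul_eq_mul]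
        show _ = _ * ∑ i, (B ⟨g, hg⟩ : Matrix (Fin m) (Fin m) E) k i * (Q *ᵥ v) (i, j)
        rw [Finset.mul_sum]
        refine Finset.sum_congr rfl fun i _ => ?_
        rw [Matrix.kronecker_apply]
        ring
      rw [h2]
      refine W.sum_mem fun j _ => W.smul_mem _ ?_
      exact hW ⟨g, hg⟩ hg' _ (hv j)) with h | h
    · left
      rw [eq_bot_iff]
      intro w hw
      have h1 : (P *ᵥ fun p : Fin m × Fin a => if p.2 = j0 then w p.1 else 0) ∈ Wh := by
        intro j
        rw [hsec w]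
        by_cases hj : j = j0
        · simp only [hj, if_true]
          exact hw
        · simp only [hj, if_false]
          exact W.zero_mem
      rw [h, Submodule.mem_bot] at h1
      have h2 := hsec w
      rw [h1, Matrix.mulVec_zero] at h2
      rw [Submodule.mem_bot]
      funext i
      have h3 := congrFun h2 (i, j0)
      simp only [if_true, Pi.zero_apply] at h3
      exact h3.symm
    · right
      rw [eq_top_iff]
      intro w _
      have h1 : (P *ᵥ fun p : Fin m × Fin a => if p.2 = j0 then w p.1 else 0) ∈ Wh := by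
        rw [h]
        trivial
      have h2 := h1 j0
      rw [hsec w] at h2
      simp only [if_true] at h2
      exact h2
  · intro u hu
    have h1 := hx1 u hu
    refine ⟨hA1 u h1, hB1 u ?_⟩
    show (x u)⁻¹ * ρ u = 1
    rw [h1, hu, inv_one, mul_one]
  · intro u
    have h1 : (x u : Matrix (Fin n) (Fin n) E).det = 1 := (hxG u).det
    have h2 : (y u : Matrix (Fin n) (Fin n) E).det = 1 := by
      have h3 : mat ρ u = (x u : Matrix (Fin n) (Fin n) E) *
          (y u : Matrix (Fin n) (Fin n) E) := by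
        rw [← Units.val_mul, mul_inv_cancel_left]
      have h4 := hUdet u
      rw [h3, Matrix.det_mul, h1, one_mul] at h4
      exact h4
    constructor
    · rw [hx u, Matrix.det_conj_of_mul_eq_one hPQ hQP, Matrix.det_kronecker, Matrix.det_one,
        one_pow, one_mul, Fintype.card_fin] at h1
      exact h1
    · rw [hy' u, Matrix.det_conj_of_mul_eq_one hPQ hQP, Matrix.det_kronecker, Matrix.det_one,
        one_pow, mul_one, Fintype.card_fin] at h2
      exact h2
  · intro v hv U' hU' h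
    refine hline v hv fun s hs => ?_
    have h1 := hstab U' hU' (Submodule.span E {v}) (by
      intro h' hh' w hw
      rw [Submodule.mem_span_singleton] at hw ⊢
      obtain ⟨d, rfl⟩ := hw
      obtain ⟨c, hc⟩ := h h' hh'
      exact ⟨d * c, by rw [Matrix.mulVec_smul, hc, smul_smul]⟩) s hs v
      (Submodule.mem_span_singleton_self v)
    rw [Submodule.mem_span_singleton] at h1
    obtain ⟨c, hc⟩ := h1
    exact ⟨c, hc.symm⟩

end Pool.Agent.H313.TD
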