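import Pool.Agent.H313.TD.Main

/-!
Roots near one in algebraically closed normed fields, and open normal subgroups of profinite groups.
-/

set_option autoImplicit false
set_option linter.all false
set_option maxHeartbeats 4000000

open Polynomial Topology Filter

namespace Pool.Agent.H313.TD

theorem prod_ge {E : Type} [NormedField E] {ε : ℝ} (hε : 0 < ε) (s : Multiset E)
    (h : ∀ r ∈ s, ε ≤ ‖1 - r‖) : ε ^ Multiset.card s ≤ ‖(s.map fun r => 1 - r).prod‖ := by
  induction s using Multiset.induction_on with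
  | empty => simp
  | cons a s ih =>
    rw [Multiset.map_cons, Multiset.prod_cons, norm_mul, Multiset.card_cons, pow_succ, mul_comm]
    exact mul_le_mul (h a (Multiset.mem_cons_self a s))
      (ih fun r hr => h r (Multiset.mem_cons_of_mem hr)) (pow_pos hε _).le (norm_nonneg _)

theorem roots_normed (E : Type) [NormedField E] [IsAlgClosed E] {n : ℕ} (hn : 0 < n) :
    ∀ W ∈ 𝓝 (1 : E), ∃ W' ∈ 𝓝 (1 : E), ∀ x ∈ W', ∃ y ∈ W, y ^ n = x := by
  intro W hW
  obtain ⟨ε, hε, hεW⟩ := Metric.mem_nhds_iff.1 hW
  refine ⟨Metric.ball 1 (ε ^ n), Metric.ball_mem_nhds _ (pow_pos hε n), fun x hx => ?_⟩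
  by_contra hcon
  push Not at hcon
  have hq : (X ^ n - C x).Monic := monic_X_pow_sub_C x hn.ne'
  have hsp : (X ^ n - C x).Splits := IsAlgClosed.splits _
  have h1 := hsp.eval_eq_prod_roots_of_monic hq 1
  have h2 : (X ^ n - C x).eval 1 = 1 - x := by simp
  have h3 : Multiset.card (X ^ n - C x).roots = n := by
    rw [← hsp.natDegree_eq_card_roots, natDegree_X_pow_sub_C]
  have h4 := prod_ge hε (X ^ n - C x).roots (by
    intro r hr
    by_contra hlt
    rw [not_le] at hlt
    refine hcon r (hεW ?_) ?_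
    · rw [Metric.mem_ball, dist_comm, dist_eq_norm]
      exact hlt
    · rw [mem_roots hq.ne_zero] at hr
      have h5 : (X ^ n - C x).eval r = 0 := hr
      simp only [eval_sub, eval_pow, eval_X, eval_C] at h5
      exact sub_eq_zero.1 h5)
  rw [← h1, h2, h3] at h4
  rw [Metric.mem_ball, dist_comm, dist_eq_norm] at hx
  exact absurd hx (not_lt.2 h4)

theorem basis_profinite (G : Type) [Group G] [TopologicalSpace G] [IsTopologicalGroup G]
    [CompactSpace G] [TotallyDisconnectedSpace G] : Basis1 G := by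
  intro W hW h1
  obtain ⟨V, hV⟩ := ProfiniteGrp.exist_openNormalSubgroup_sub_open_nhds_of_one hW h1
  exact ⟨V.toSubgroup, V.isNormal', V.isOpen', hV⟩

end Pool.Agent.H313.TD
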