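import Pool.Agent.H313.TD.Top

/-!
The commuting factors of a Lie-irreducible representation relative to a normal subgroup.
-/

set_option autoImplicit false
set_option linter.all false
set_option maxHeartbeats 4000000

open Matrix Polynomial Module Topology Filter

namespace Pool.Agent.H313.TD

variable {E : Type} [Field E] {n : ℕ} {G : Type} [Group G] {ρ : G →* GL (Fin n) E}
  [TopologicalSpace G] [IsTopologicalGroup G] [TopologicalSpace E]
  [IsTopologicalDivisionRing E] [T2Space E] [CharZero E] [IsAlgClosed E]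

/-- the open normal subgroups form a basis of the neighbourhoods of one -/
def Basis1 (G : Type) [Group G] [TopologicalSpace G] : Prop :=
  ∀ W : Set G, IsOpen W → (1 : G) ∈ W → ∃ V : Subgroup G, V.Normal ∧ IsOpen (V : Set G) ∧
    (V : Set G) ⊆ W

omit [TopologicalSpace E] [IsTopologicalDivisionRing E] [T2Space E] [CharZero E] [IsAlgClosed E] in
/-- the smallest span -/
theorem exists_small (hb : Basis1 G) (ρ : G →* GL (Fin n) E) (N : Subgroup G) (hN : N.Normal) :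
    ∃ U0 : Subgroup G, U0.Normal ∧ IsOpen (U0 : Set G) ∧ ∀ U : Subgroup G, IsOpen (U : Set G) →
      Sp ρ (N ⊓ U0) ≤ Sp ρ (N ⊓ U) := by
  classical
  have hex : ∃ k : ℕ, ∃ U : Subgroup G, U.Normal ∧ IsOpen (U : Set G) ∧
      finrank E (Sp ρ (N ⊓ U)) = k :=
    ⟨_, ⊤, Subgroup.normal_of_characteristic ⊤, isOpen_univ, rfl⟩
  obtain ⟨U0, h1, h2, h3⟩ := Nat.find_spec hex
  refine ⟨U0, h1, h2, fun U hU => ?_⟩
  obtain ⟨V, hVn, hVo, hV⟩ := hb ((U ⊓ U0 : Subgroup G) : Set G) (hU.inter h2) (U ⊓ U0).one_mem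
  have hle : Sp ρ (N ⊓ V) ≤ Sp ρ (N ⊓ U0) :=
    Sp_mono (inf_le_inf_left N fun g hg => (hV hg).2)
  have hfr : ¬ finrank E (Sp ρ (N ⊓ V)) < finrank E (Sp ρ (N ⊓ U0)) := by
    intro h
    rw [h3] at h
    exact Nat.find_min hex h ⟨V, hVn, hVo, rfl⟩
  have heq := Submodule.eq_of_le_of_finrank_le hle (not_lt.1 hfr)
  rw [← heq]
  exact Sp_mono (inf_le_inf_left N fun g hg => (hV hg).1)

/-- the linear representation implementing the conjugation on the subalgebra -/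
theorem exists_split (hb : Basis1 G) (N : Subgroup G) (hN : N.Normal) (hρ : Continuous (mat ρ))
    (hlie : LieIrr ρ) (hn : 0 < n)
    (hroots : ∀ W ∈ 𝓝 (1 : E), ∃ W' ∈ 𝓝 (1 : E), ∀ x ∈ W', ∃ y ∈ W, y ^ n = x)
    (hdet : ∀ᶠ g in 𝓝 (1 : G), (mat ρ g).det = 1) :
    ∃ (U : Subgroup G) (S : Submodule E (Matrix (Fin n) (Fin n) E)) (x : U →* GL (Fin n) E),
      IsOpen (U : Set G) ∧ NA ρ S ∧
      (∀ U' : Subgroup G, IsOpen (U' : Set G) → S ≤ Sp ρ (N ⊓ U')) ∧
      (∀ h ∈ N ⊓ U, mat ρ h ∈ S) ∧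
      (∀ z ∈ S, (∀ a ∈ S, z * a = a * z) → ∃ c : E, z = c • (1 : Matrix (Fin n) (Fin n) E)) ∧
      Continuous x ∧ (∀ u : U, Good ρ S (u : G) (x u)) ∧ (∀ u : U, (u : G) ∈ N → x u = ρ u) ∧
      (∀ u : U, ρ u = 1 → x u = 1) ∧ (∀ u : U, (mat ρ u).det = 1) := by
  classical
  obtain ⟨U0, hU0n, hU0o, hU0⟩ := exists_small hb ρ N hN
  have hNU : (N ⊓ U0).Normal := by
    haveI := hN
    haveI := hU0n
    exact Subgroup.normal_inf_normal _ _
  set S := Sp ρ (N ⊓ U0) with hSdef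
  have hS : NA ρ S := Sp_NA _ hNU
  have hnd : ∀ a ∈ S, (∀ b ∈ S, (a * b).trace = 0) → a = 0 := fun a ha h =>
    trace_nondeg hlie.irr hS ha h
  have hcen : ∀ z ∈ S, (∀ a ∈ S, z * a = a * z) → ∃ c : E, z = c • (1 : Matrix (Fin n) (Fin n) E) :=
    fun z hz hzc => center_scalar hρ hlie hS hz hzc
  obtain ⟨O, hO, hO1⟩ := exists_nhd (E := E) hn
  have h1O : (1 : Matrix (Fin n) (Fin n) E) ∈ O := mem_of_mem_nhds hO
  have hmatO : ∀ᶠ g in 𝓝 (1 : G), mat ρ g ∈ O := by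
    apply hρ.continuousAt.eventually
    rw [mat_one]
    exact hO
  have hall : ∀ᶠ g in 𝓝 (1 : G), g ∈ U0 ∧ mat ρ g ∈ O ∧ (mat ρ g).det = 1 ∧
      ∃ x ∈ O, Good ρ S g x := by
    filter_upwards [hU0o.mem_nhds U0.one_mem, hmatO, hdet,
      local_good hn hρ hS hnd hroots O hO] with g h1 h2 h3 h4
    exact ⟨h1, h2, h3, h4⟩
  obtain ⟨T, hT1, hT2, hT3⟩ := mem_nhds_iff.1 hall
  obtain ⟨V, -, hVo, hV⟩ := hb T hT2 hT3
  let U : Subgroup G := V
  have hUo : IsOpen (U : Set G) := hVo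
  have hU : ∀ u : U, (u : G) ∈ U0 ∧ mat ρ (u : G) ∈ O ∧ (mat ρ (u : G)).det = 1 ∧
      ∃ x ∈ O, Good ρ S (u : G) x := fun u => hT1 (hV u.2)
  choose hUa hUb hUc xm hxO hxG using hU
  have huniq : ∀ (u : U) (x : Matrix (Fin n) (Fin n) E), x ∈ O → Good ρ S (u : G) x →
      x = xm u := by
    intro u x hx hg
    obtain ⟨c, hc, hxc⟩ := good_unique hS hcen hg (hxG u)
    have h1 : c = 1 := hO1 x hx 1 h1O (xm u) (hxO u) c hc (by rw [mul_one]; exact hxc)
    rw [hxc, h1, one_smul]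
  have hmul : ∀ u v : U, xm (u * v) = xm u * xm v := by
    intro u v
    obtain ⟨c, hc, hxc⟩ := good_unique hS hcen
      (show Good ρ S ((u * v : U) : G) (xm u * xm v) from Good.mul hS (hxG u) (hxG v)) (hxG (u * v))
    have h1 : c = 1 := hO1 (xm u) (hxO u) (xm v) (hxO v) (xm (u * v)) (hxO _) c hc hxc
    rw [hxc, h1, one_smul]
  have hone : xm 1 = 1 := (huniq 1 1 h1O (good_one_of hS (by
    show mat ρ ((1 : U) : G) = 1
    rw [Subgroup.coe_one, mat_one]))).symm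
  let x0 : U →* Matrix (Fin n) (Fin n) E :=
    { toFun := xm, map_one' := hone, map_mul' := hmul }
  let x : U →* GL (Fin n) E := x0.toHomUnits
  have hxval : ∀ u, (x u : Matrix (Fin n) (Fin n) E) = xm u := fun u => rfl
  have hcont1 : Tendsto xm (𝓝 1) (𝓝 1) := by
    intro O' hO'
    have h1 := local_good hn hρ hS hnd hroots (O ∩ O') (inter_mem hO hO')
    have h2 : ∀ᶠ u : U in 𝓝 (1 : U), ∃ x ∈ O ∩ O', Good ρ S (u : G) x :=
      (continuous_subtype_val.continuousAt (x := (1 : U))).eventually h1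
    rw [mem_map]
    filter_upwards [h2] with u hu
    obtain ⟨y, hy, hyg⟩ := hu
    show xm u ∈ O'
    rw [← huniq u y hy.1 hyg]
    exact hy.2
  have hcontm : Continuous xm := by
    rw [continuous_iff_continuousAt]
    intro u0
    have h1 : Tendsto (fun u : U => u0⁻¹ * u) (𝓝 u0) (𝓝 1) := by
      have h2 : Continuous fun u : U => u0⁻¹ * u := continuous_const.mul continuous_id
      have h3 := h2.tendsto u0
      rwa [inv_mul_cancel] at h3
    have h2 : Tendsto (fun u : U => xm u0 * xm (u0⁻¹ * u)) (𝓝 u0) (𝓝 (xm u0 * 1)) :=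
      tendsto_const_nhds.mul (hcont1.comp h1)
    have h3 : (fun u : U => xm u0 * xm (u0⁻¹ * u)) = xm := by
      funext u
      rw [← hmul, mul_inv_cancel_left]
    rw [h3, mul_one] at h2
    exact h2
  have hcontx : Continuous x := by
    rw [Units.continuous_iff]
    refine ⟨hcontm, ?_⟩
    have h1 : (fun u : U => ((x u)⁻¹ : GL (Fin n) E).val) = fun u => xm u⁻¹ := by
      funext u
      rw [← map_inv]
      exact hxval _
    show Continuous fun u : U => ((x u)⁻¹ : GL (Fin n) E).val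
    rw [h1]
    exact hcontm.comp continuous_inv
  have hmemS : ∀ h ∈ N ⊓ U, mat ρ h ∈ S := by
    rintro h ⟨hh1, hh2⟩
    exact mem_Sp ⟨hh1, hUa ⟨h, hh2⟩⟩
  refine ⟨U, S, x, hUo, hS, hU0, hmemS, hcen, hcontx, hxG, ?_, ?_, hUc⟩
  · intro u hu
    apply Units.ext
    show xm u = mat ρ u
    exact (huniq u _ (hUb u) (good_self (hmemS u ⟨hu, u.2⟩) (hUc u))).symm
  · intro u hu
    apply Units.ext
    show xm u = 1
    refine (huniq u 1 h1O (good_one_of hS ?_)).symm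
    show (ρ (u : G) : Matrix (Fin n) (Fin n) E) = 1
    rw [hu]
    rfl

end Pool.Agent.H313.TD
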