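import Pool.Agent.H313.TD.Split

/-!
The tensor decomposition.
-/

set_option autoImplicit false
set_option linter.all false
set_option maxHeartbeats 4000000

open Matrix Polynomial Module Topology Filter Kronecker

namespace Pool.Agent.H313.TD

section schur

variable {E : Type} [Field E] {n : ℕ} {S : Submodule E (Matrix (Fin n) (Fin n) E)}
  {A : Submodule E (Fin n → E)}

/-- Schur's lemma -/
theorem schur [IsAlgClosed E] (hA0 : A ≠ ⊥)
    (hmin : ∀ W : Submodule E (Fin n → E), W ≤ A → (∀ a ∈ S, ∀ w ∈ W, a *ᵥ w ∈ W) → W ≠ ⊥ → W = A)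
    (T : A →ₗ[E] A) (hT : ∀ a ∈ S, ∀ w : A, ∀ hw : a *ᵥ (w : Fin n → E) ∈ A,
      (T ⟨a *ᵥ (w : Fin n → E), hw⟩ : Fin n → E) = a *ᵥ (T w : Fin n → E)) 
    (hA : ∀ a ∈ S, ∀ w ∈ A, a *ᵥ w ∈ A) : ∃ c : E, ∀ w, T w = c • w := by
  haveI : Nontrivial A := by
    rw [Submodule.nontrivial_iff_ne_bot]
    exact hA0
  obtain ⟨c, hc⟩ := Module.End.exists_eigenvalue T
  obtain ⟨v, hv⟩ := hc.exists_hasEigenvector
  have hv1 : T v = c • v := hv.apply_eq_smul
  let W : Submodule E (Fin n → E) := (Module.End.eigenspace T c).map A.subtype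
  have hWA : W = A := by
    refine hmin W ?_ ?_ ?_
    · rintro _ ⟨w, -, rfl⟩
      exact w.2
    · rintro a ha _ ⟨w, hw, rfl⟩
      refine ⟨⟨a *ᵥ (w : Fin n → E), hA a ha w w.2⟩, ?_, rfl⟩
      have hw' : T w = c • w := Module.End.mem_eigenspace_iff.1 hw
      show _ ∈ Module.End.eigenspace T c
      rw [Module.End.mem_eigenspace_iff]
      apply Subtype.ext
      rw [hT a ha w, hw', Submodule.coe_smul, Submodule.coe_smul, Matrix.mulVec_smul]
    · intro h0
      have h1 : (v : Fin n → E) ∈ W := ⟨v, Module.End.mem_eigenspace_iff.2 hv1, rfl⟩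
      rw [h0, Submodule.mem_bot] at h1
      exact hv.2 (Subtype.ext h1)
  refine ⟨c, fun w => ?_⟩
  have h1 : (w : Fin n → E) ∈ W := by
    rw [hWA]
    exact w.2
  obtain ⟨w', hw', hw2⟩ := h1
  have h2 : w' = w := Subtype.ext hw2
  rw [← h2]
  exact Module.End.mem_eigenspace_iff.1 hw'

end schur

section algebra

variable {E : Type} [Field E] [IsAlgClosed E] {n : ℕ} {H : Type} [Group H]

theorem tensor_alg (hn : 0 < n) (r x : H →* GL (Fin n) E)
    (S : Submodule E (Matrix (Fin n) (Fin n) E))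
    (hxS : ∀ u, (x u : Matrix (Fin n) (Fin n) E) ∈ S)
    (hcomm : ∀ u, ∀ a ∈ S, (x u : Matrix (Fin n) (Fin n) E) * a =
      (r u : Matrix (Fin n) (Fin n) E) * a * (r u⁻¹ : Matrix (Fin n) (Fin n) E) * x u)
    (hirr : ∀ W : Submodule E (Fin n → E),
      (∀ u, ∀ w ∈ W, (r u : Matrix (Fin n) (Fin n) E) *ᵥ w ∈ W) → W = ⊥ ∨ W = ⊤) :
    ∃ (m a : ℕ) (P : Matrix (Fin n) (Fin m × Fin a) E) (Q : Matrix (Fin m × Fin a) (Fin n) E)
      (A : H →* GL (Fin a) E) (B : H →* GL (Fin m) E) (κ : (Fin a → E) →ₗ[E] (Fin n → E)),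
      0 < m ∧ 0 < a ∧ m * a = n ∧ P * Q = 1 ∧ Q * P = 1 ∧
      (∀ u, (x u : Matrix (Fin n) (Fin n) E) =
        P * ((1 : Matrix (Fin m) (Fin m) E) ⊗ₖ (A u : Matrix (Fin a) (Fin a) E)) * Q) ∧
      (∀ u, (((x u)⁻¹ * r u : GL (Fin n) E) : Matrix (Fin n) (Fin n) E) =
        P * ((B u : Matrix (Fin m) (Fin m) E) ⊗ₖ (1 : Matrix (Fin a) (Fin a) E)) * Q) ∧
      Function.Injective κ ∧
      (∀ u w, (x u : Matrix (Fin n) (Fin n) E) *ᵥ κ w =
        κ ((A u : Matrix (Fin a) (Fin a) E) *ᵥ w)) ∧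
      (∀ W : Submodule E (Fin n → E), W ≤ LinearMap.range κ → (∀ s ∈ S, ∀ w ∈ W, s *ᵥ w ∈ W) →
        W ≠ ⊥ → W = LinearMap.range κ) ∧
      (∀ v : Fin n → E, v ≠ 0 → (∀ s ∈ S, ∃ c : E, s *ᵥ v = c • v) → a = 1) := by
  classical
  -- the second factor
  let y : H → Matrix (Fin n) (Fin n) E := fun u => (((x u)⁻¹ * r u : GL (Fin n) E) :
    Matrix (Fin n) (Fin n) E)
  have hxr : ∀ u, (r u : Matrix (Fin n) (Fin n) E) = (x u : Matrix (Fin n) (Fin n) E) * y u := by
    intro u
    show _ = (x u : Matrix (Fin n) (Fin n) E) * (((x u)⁻¹ * r u : GL (Fin n) E) :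
      Matrix (Fin n) (Fin n) E)
    rw [← Units.val_mul, mul_inv_cancel_left]
  have hyc : ∀ u, ∀ a ∈ S, y u * a = a * y u := by
    intro u a ha
    have h1 := hcomm u a ha
    have h2 : ((x u)⁻¹ : GL (Fin n) E).val * (x u : Matrix (Fin n) (Fin n) E) = 1 :=
      Units.inv_mul _
    have h3 : (x u : Matrix (Fin n) (Fin n) E) * ((x u)⁻¹ : GL (Fin n) E).val = 1 :=
      Units.mul_inv _
    have h4 : (r u⁻¹ : Matrix (Fin n) (Fin n) E) * (r u : Matrix (Fin n) (Fin n) E) = 1 := by
      rw [← Units.val_mul, ← map_mul, inv_mul_cancel, map_one]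
      rfl
    show ((x u)⁻¹ : GL (Fin n) E).val * (r u : Matrix (Fin n) (Fin n) E) * a =
      a * (((x u)⁻¹ : GL (Fin n) E).val * (r u : Matrix (Fin n) (Fin n) E))
    set X := (x u : Matrix (Fin n) (Fin n) E)
    set X' := ((x u)⁻¹ : GL (Fin n) E).val
    set R := (r u : Matrix (Fin n) (Fin n) E)
    set R' := (r u⁻¹ : Matrix (Fin n) (Fin n) E)
    calc X' * R * a = X' * (R * a * R' * X) * X' * R := by
          simp only [mul_assoc]
          rw [← mul_assoc X X', h3, one_mul, h4, mul_one]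
      _ = X' * (X * a) * X' * R := by rw [h1]
      _ = a * (X' * R) := by
          rw [← mul_assoc X', h2, one_mul, mul_assoc]
  have hymul : ∀ u v, y (u * v) = y u * y v := by
    intro u v
    have h1 : y u * ((x v)⁻¹ : GL (Fin n) E).val = ((x v)⁻¹ : GL (Fin n) E).val * y u := by
      have h2 := hyc u _ (hxS v⁻¹)
      rwa [map_inv] at h2
    calc y (u * v) = ((x v)⁻¹ : GL (Fin n) E).val * y u * (r v : Matrix (Fin n) (Fin n) E) := by
          show (((x (u * v))⁻¹ * r (u * v) : GL (Fin n) E) : Matrix (Fin n) (Fin n) E) =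
            ((x v)⁻¹ : GL (Fin n) E).val * (((x u)⁻¹ * r u : GL (Fin n) E) :
              Matrix (Fin n) (Fin n) E) * (r v : Matrix (Fin n) (Fin n) E)
          rw [← Units.val_mul, ← Units.val_mul, map_mul, map_mul, _root_.mul_inv_rev]
          congr 1
          group
      _ = y u * y v := by
          rw [← h1, mul_assoc]
          rfl
  have hyone : y 1 = 1 := by
    show (((x 1)⁻¹ * r 1 : GL (Fin n) E) : Matrix (Fin n) (Fin n) E) = 1
    rw [map_one, map_one, inv_one, mul_one]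
    rfl
  -- the minimal subspace
  obtain ⟨A0, hA1, hA2, hA3⟩ := exists_min hn S
  set a := finrank E A0 with ha
  have ha0 : 0 < a := by
    rw [ha, Module.finrank_pos_iff, Submodule.nontrivial_iff_ne_bot]
    exact hA1
  let e : Basis (Fin a) E A0 := Module.finBasis E A0
  let Y : H → (Fin n → E) →ₗ[E] (Fin n → E) := fun u => Matrix.mulVecLin (y u)
  let Φ : ∀ {m : ℕ}, (Fin m → H) → ((Fin m → A0) →ₗ[E] (Fin n → E)) := fun {m} us =>
    ∑ i, (Y (us i)).comp (A0.subtype.comp (LinearMap.proj i))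
  have hΦ : ∀ {m : ℕ} (us : Fin m → H) (w : Fin m → A0),
      Φ us w = ∑ i, y (us i) *ᵥ (w i : Fin n → E) := by
    intro m us w
    simp only [Φ, LinearMap.sum_apply, LinearMap.comp_apply, LinearMap.proj_apply, Y,
      Matrix.mulVecLin_apply, Submodule.coe_subtype]
  let Pm : ℕ → Prop := fun m => ∃ us : Fin m → H, Function.Injective (Φ us)
  have hP0 : Pm 0 := ⟨fun i => i.elim0, fun a b _ => Subsingleton.elim _ _⟩
  have hPb : ∀ m, Pm m → m ≤ n := by
    rintro m ⟨us, hus⟩
    have h1 := LinearMap.finrank_le_finrank_of_injective hus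
    rw [Module.finrank_fin_fun, Module.finrank_pi_fintype] at h1
    simp only [Finset.sum_const, Finset.card_univ, Fintype.card_fin, smul_eq_mul] at h1
    rw [← ha] at h1
    exact (Nat.le_mul_of_pos_right m ha0).trans h1
  obtain ⟨m, hPm, hPm1⟩ : ∃ m, Pm m ∧ ¬ Pm (m + 1) := by
    by_contra hcon
    push Not at hcon
    have h1 : ∀ m, Pm m := by
      intro m
      induction m with
      | zero => exact hP0
      | succ m ih => exact hcon m ih
    have := hPb (n + 1) (h1 (n + 1))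
    omega
  obtain ⟨us, hus⟩ := hPm
  -- stability
  let sA : ∀ s ∈ S, A0 → A0 := fun s hs w => ⟨s *ᵥ (w : Fin n → E), hA2 s hs w w.2⟩
  have hΦS : ∀ s (hs : s ∈ S) (w : Fin m → A0), Φ us (fun i => sA s hs (w i)) = s *ᵥ Φ us w := by
    intro s hs w
    rw [hΦ, hΦ, Matrix.mulVec_sum]
    refine Finset.sum_congr rfl fun i _ => ?_
    show y (us i) *ᵥ (s *ᵥ (w i : Fin n → E)) = s *ᵥ (y (us i) *ᵥ (w i : Fin n → E))
    rw [Matrix.mulVec_mulVec, Matrix.mulVec_mulVec, hyc _ s hs]
  have hcover : ∀ u, ∀ w ∈ A0, y u *ᵥ w ∈ LinearMap.range (Φ us) := by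
    intro u
    by_contra hcon
    push Not at hcon
    obtain ⟨w1, hw1, hw1'⟩ := hcon
    let W : Submodule E (Fin n → E) := A0 ⊓ (LinearMap.range (Φ us)).comap (Y u)
    have hW : W = ⊥ := by
      by_contra hne
      have h1 := hA3 W inf_le_left (by
        rintro s hs w ⟨hw, hw'⟩
        refine ⟨hA2 s hs w hw, ?_⟩
        obtain ⟨z, hz⟩ := hw'
        have hz' : Φ us z = y u *ᵥ w := hz
        refine ⟨fun i => sA s hs (z i), ?_⟩
        show Φ us (fun i => sA s hs (z i)) = y u *ᵥ (s *ᵥ w)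
        rw [hΦS s hs, hz', Matrix.mulVec_mulVec, Matrix.mulVec_mulVec, hyc _ s hs]) hne
      have h2 : w1 ∈ W := by rw [h1]; exact hw1
      exact hw1' h2.2
    apply hPm1
    refine ⟨Fin.cons u us, ?_⟩
    rw [← LinearMap.ker_eq_bot, LinearMap.ker_eq_bot']
    intro z hz
    have h1 : Φ (Fin.cons u us : Fin (m + 1) → H) z = y u *ᵥ (z 0 : Fin n → E) +
        Φ us (fun i => z i.succ) := by
      rw [hΦ, hΦ, Fin.sum_univ_succ]
      simp only [Fin.cons_zero, Fin.cons_succ]
    rw [h1] at hz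
    have h2 : (z 0 : Fin n → E) ∈ W := by
      refine ⟨(z 0).2, ⟨-(fun i => z i.succ), ?_⟩⟩
      rw [map_neg]
      exact (eq_neg_of_add_eq_zero_left hz).symm
    rw [hW, Submodule.mem_bot] at h2
    rw [h2, Matrix.mulVec_zero, zero_add] at hz
    have h3 : (fun i : Fin m => z i.succ) = 0 := hus (by rw [hz, map_zero])
    funext i
    refine Fin.cases ?_ (fun j => ?_) i
    · exact Subtype.ext h2
    · exact congrFun h3 j
  have hrange : LinearMap.range (Φ us) = ⊤ := by
    refine (hirr _ ?_).resolve_left ?_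
    · rintro u _ ⟨z, rfl⟩
      rw [hΦ, Matrix.mulVec_sum]
      refine Submodule.sum_mem _ fun i _ => ?_
      have h1 : (r u : Matrix (Fin n) (Fin n) E) *ᵥ (y (us i) *ᵥ (z i : Fin n → E)) =
          y (u * us i) *ᵥ ((x u : Matrix (Fin n) (Fin n) E) *ᵥ (z i : Fin n → E)) := by
        rw [Matrix.mulVec_mulVec, Matrix.mulVec_mulVec, hxr u, hymul, mul_assoc, mul_assoc,
          hyc (us i) _ (hxS u), ← mul_assoc (y u), ← mul_assoc, hyc u _ (hxS u)]
      rw [h1]
      exact hcover _ _ (hA2 _ (hxS u) _ (z i).2)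
    · intro h0
      apply hA1
      rw [Submodule.eq_bot_iff]
      intro w hw
      have h1 := hcover 1 w hw
      rw [hyone, Matrix.one_mulVec, h0, Submodule.mem_bot] at h1
      exact h1
  let Φe : (Fin m → A0) ≃ₗ[E] (Fin n → E) :=
    LinearEquiv.ofBijective (Φ us) ⟨hus, LinearMap.range_eq_top.1 hrange⟩
  have hΦe : ∀ w, Φe w = Φ us w := fun w => rfl
  have hma : m * a = n := by
    have h1 := Φe.finrank_eq
    rw [Module.finrank_fin_fun, Module.finrank_pi_fintype] at h1
    simp only [Finset.sum_const, Finset.card_univ, Fintype.card_fin, smul_eq_mul] at h1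
    rw [← ha] at h1
    exact h1
  have hm0 : 0 < m := by
    rcases Nat.eq_zero_or_pos m with h | h
    · rw [h, zero_mul] at hma
      omega
    · exact h
  have hsymm : ∀ s (hs : s ∈ S) (v : Fin n → E),
      Φe.symm (s *ᵥ v) = fun i => sA s hs (Φe.symm v i) := by
    intro s hs v
    apply Φe.injective
    rw [Φe.apply_symm_apply, hΦe, hΦS s hs, ← hΦe, Φe.apply_symm_apply]
  let b : Basis (Fin m × Fin a) E (Fin n → E) :=
    ((Pi.basis fun _ : Fin m => e).map Φe).reindex (Equiv.sigmaEquivProd (Fin m) (Fin a))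
  have hb : ∀ i j, b (i, j) = y (us i) *ᵥ (e j : Fin n → E) := by
    intro i j
    have h1 : b (i, j) = Φ us (Pi.single i (e j)) := by
      rw [Basis.reindex_apply, Basis.map_apply, hΦe]
      congr 1
      exact Pi.basis_apply _ _
    rw [h1, hΦ, Finset.sum_eq_single i]
    · rw [Pi.single_eq_same]
    · intro k _ hk
      rw [Pi.single_eq_of_ne hk, Submodule.coe_zero, Matrix.mulVec_zero]
    · intro h
      exact absurd (Finset.mem_univ i) h
  let P : Matrix (Fin n) (Fin m × Fin a) E := (Pi.basisFun E (Fin n)).toMatrix b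
  let Q : Matrix (Fin m × Fin a) (Fin n) E := b.toMatrix (Pi.basisFun E (Fin n))
  have hP : ∀ k p, P k p = b p k := fun k p => by
    show (Pi.basisFun E (Fin n)).toMatrix b k p = b p k
    rw [Basis.toMatrix_apply, Pi.basisFun_repr]
  have hPQ : P * Q = 1 := Basis.toMatrix_mul_toMatrix_flip _ _
  have hQP : Q * P = 1 := Basis.toMatrix_mul_toMatrix_flip _ _
  have hconj : ∀ (X : Matrix (Fin n) (Fin n) E) (C : Matrix (Fin m) (Fin m) E)
      (D : Matrix (Fin a) (Fin a) E),
      (∀ i j, X *ᵥ b (i, j) = ∑ i', ∑ j', (C i' i * D j' j) • b (i', j')) →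
      X = P * (C ⊗ₖ D) * Q := by
    intro X C D h
    have h1 : X * P = P * (C ⊗ₖ D) := by
      ext k ⟨i, j⟩
      have h2 := congrFun (h i j) k
      rw [Matrix.mul_apply, Matrix.mul_apply]
      have h3 : (X *ᵥ b (i, j)) k = ∑ l, X k l * P l (i, j) := by
        rw [Matrix.mulVec, dotProduct]
        exact Finset.sum_congr rfl fun l _ => by rw [hP]
      rw [← h3, h2, Fintype.sum_prod_type, Finset.sum_apply]
      refine Finset.sum_congr rfl fun i' _ => ?_
      rw [Finset.sum_apply]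
      refine Finset.sum_congr rfl fun j' _ => ?_
      rw [Pi.smul_apply, smul_eq_mul, hP, Matrix.kronecker_apply, mul_comm]
    rw [← h1, Matrix.mul_assoc, hPQ, Matrix.mul_one]
  -- the first factor
  let xA : H →* Module.End E A0 :=
    { toFun := fun u => (Matrix.mulVecLin (x u : Matrix (Fin n) (Fin n) E)).restrict
        (fun w hw => hA2 _ (hxS u) w hw)
      map_one' := by
        ext w
        show ((x 1 : Matrix (Fin n) (Fin n) E) *ᵥ (w : Fin n → E)) _ = _
        rw [map_one, Units.val_one, Matrix.one_mulVec]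
        rfl
      map_mul' := by
        intro u v
        ext w
        show ((x (u * v) : Matrix (Fin n) (Fin n) E) *ᵥ (w : Fin n → E)) _ =
          ((x u : Matrix (Fin n) (Fin n) E) *ᵥ ((x v : Matrix (Fin n) (Fin n) E) *ᵥ
            (w : Fin n → E))) _
        rw [map_mul, Units.val_mul, Matrix.mulVec_mulVec] }
  let Am : H →* Matrix (Fin a) (Fin a) E :=
    (LinearMap.toMatrixAlgEquiv e).toAlgHom.toRingHom.toMonoidHom.comp xA
  have hAm : ∀ u k j, Am u k j = e.repr (xA u (e j)) k := fun u k j =>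
    LinearMap.toMatrixAlgEquiv_apply _ _ _ _
  have hxe : ∀ u j, (x u : Matrix (Fin n) (Fin n) E) *ᵥ (e j : Fin n → E) =
      ∑ k, Am u k j • (e k : Fin n → E) := by
    intro u j
    have h1 := congrArg Subtype.val (e.sum_repr (xA u (e j)))
    rw [Submodule.coe_sum] at h1
    have h2 : ((xA u (e j) : A0) : Fin n → E) =
        (x u : Matrix (Fin n) (Fin n) E) *ᵥ (e j : Fin n → E) := rfl
    rw [← h2, ← h1]
    refine Finset.sum_congr rfl fun k _ => ?_
    rw [hAm, Submodule.coe_smul]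
  let A : H →* GL (Fin a) E := Am.toHomUnits
  have hA : ∀ u, (A u : Matrix (Fin a) (Fin a) E) = Am u := fun u => rfl
  -- the second factor
  have hB : ∀ (u : H) (k i : Fin m), ∃ c : E, ∀ w : A0,
      Φe.symm (y u *ᵥ (y (us i) *ᵥ (w : Fin n → E))) k = c • w := by
    intro u k i
    let T : A0 →ₗ[E] A0 := (LinearMap.proj k).comp (Φe.symm.toLinearMap.comp
      ((Y u).comp ((Y (us i)).comp A0.subtype)))
    obtain ⟨c, hc⟩ := schur hA1 hA3 T (by
      intro s hs w hw
      show ((Φe.symm (y u *ᵥ (y (us i) *ᵥ (s *ᵥ (w : Fin n → E)))) k : A0) : Fin n → E) =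
        s *ᵥ ((Φe.symm (y u *ᵥ (y (us i) *ᵥ (w : Fin n → E))) k : A0) : Fin n → E)
      have h1 : y u *ᵥ (y (us i) *ᵥ (s *ᵥ (w : Fin n → E))) =
          s *ᵥ (y u *ᵥ (y (us i) *ᵥ (w : Fin n → E))) := by
        simp only [Matrix.mulVec_mulVec]
        rw [← mul_assoc, ← mul_assoc, mul_assoc, hyc _ s hs, ← mul_assoc, hyc _ s hs]
      rw [h1, hsymm s hs]) hA2
    exact ⟨c, hc⟩
  choose Bf hBf using hB
  let Bm : H → Matrix (Fin m) (Fin m) E := fun u => Matrix.of (Bf u)
  have hBm : ∀ u, y u = P * (Bm u ⊗ₖ (1 : Matrix (Fin a) (Fin a) E)) * Q := by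
    intro u
    apply hconj
    intro i j
    have h1 : y u *ᵥ b (i, j) = Φ us (Φe.symm (y u *ᵥ b (i, j))) := by
      rw [← hΦe, Φe.apply_symm_apply]
    rw [h1, hΦ]
    refine Finset.sum_congr rfl fun k _ => ?_
    rw [hb, hBf u k i (e j), Finset.sum_eq_single j]
    · rw [Matrix.one_apply_eq, mul_one, hb, Submodule.coe_smul, Matrix.mulVec_smul]
      rfl
    · intro j' _ hj'
      rw [Matrix.one_apply_ne hj', mul_zero, zero_smul]
    · intro h
      exact absurd (Finset.mem_univ j) h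
  have hBQ : ∀ u, Bm u ⊗ₖ (1 : Matrix (Fin a) (Fin a) E) = Q * y u * P := by
    intro u
    rw [hBm u]
    calc Bm u ⊗ₖ (1 : Matrix (Fin a) (Fin a) E) =
        (Q * P) * (Bm u ⊗ₖ (1 : Matrix (Fin a) (Fin a) E)) * (Q * P) := by
          rw [hQP, Matrix.one_mul, Matrix.mul_one]
      _ = _ := by simp only [Matrix.mul_assoc]
  have hkinj : ∀ C C' : Matrix (Fin m) (Fin m) E,
      C ⊗ₖ (1 : Matrix (Fin a) (Fin a) E) = C' ⊗ₖ (1 : Matrix (Fin a) (Fin a) E) → C = C' := by
    intro C C' h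
    ext i j
    have h1 := congrFun (congrFun h (i, ⟨0, ha0⟩)) (j, ⟨0, ha0⟩)
    rw [Matrix.kronecker_apply, Matrix.kronecker_apply, Matrix.one_apply_eq, mul_one, mul_one] at h1
    exact h1
  let B0 : H →* Matrix (Fin m) (Fin m) E :=
    { toFun := Bm
      map_one' := by
        apply hkinj
        rw [hBQ, hyone, Matrix.one_kronecker_one, Matrix.mul_one, hQP]
      map_mul' := by
        intro u v
        apply hkinj
        have h1 : (Bm u * Bm v) ⊗ₖ (1 : Matrix (Fin a) (Fin a) E) =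
            (Bm u ⊗ₖ (1 : Matrix (Fin a) (Fin a) E)) * (Bm v ⊗ₖ (1 : Matrix (Fin a) (Fin a) E)) := by
          rw [← Matrix.mul_kronecker_mul, Matrix.one_mul]
        rw [h1, hBQ, hBQ, hBQ, hymul]
        calc Q * (y u * y v) * P = Q * y u * (P * Q) * y v * P := by
              rw [hPQ, Matrix.mul_one]
              simp only [Matrix.mul_assoc]
          _ = _ := by simp only [Matrix.mul_assoc] }
  let B : H →* GL (Fin m) E := B0.toHomUnits
  have hBv : ∀ u, (B u : Matrix (Fin m) (Fin m) E) = Bm u := fun u => rfl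
  let κ : (Fin a → E) →ₗ[E] (Fin n → E) := A0.subtype.comp e.equivFun.symm.toLinearMap
  have hκ : ∀ w, κ w = ∑ j, w j • (e j : Fin n → E) := by
    intro w
    show ((e.equivFun.symm w : A0) : Fin n → E) = _
    rw [Basis.equivFun_symm_apply, Submodule.coe_sum]
    exact Finset.sum_congr rfl fun j _ => Submodule.coe_smul _ _
  have hκr : LinearMap.range κ = A0 := by
    rw [LinearMap.range_comp_of_range_eq_top _ (LinearEquiv.range _), Submodule.range_subtype]
  refine ⟨m, a, P, Q, A, B, κ, hm0, ha0, hma, hPQ, hQP, ?_, ?_, ?_, ?_, ?_, ?_⟩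
  · intro u
    rw [hA]
    apply hconj
    intro i j
    rw [hb, Matrix.mulVec_mulVec, ← hyc (us i) _ (hxS u), ← Matrix.mulVec_mulVec, hxe,
      Matrix.mulVec_sum, Finset.sum_eq_single i]
    · refine Finset.sum_congr rfl fun k _ => ?_
      rw [Matrix.one_apply_eq, one_mul, Matrix.mulVec_smul, hb]
    · intro i' _ hi'
      refine Finset.sum_eq_zero fun j' _ => ?_
      rw [Matrix.one_apply_ne hi', zero_mul, zero_smul]
    · intro h
      exact absurd (Finset.mem_univ i) h
  · intro u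
    rw [hBv]
    exact hBm u
  · exact Subtype.val_injective.comp e.equivFun.symm.injective
  · intro u w
    rw [hκ, hκ, Matrix.mulVec_sum]
    have h1 : ∀ j, (x u : Matrix (Fin n) (Fin n) E) *ᵥ (w j • (e j : Fin n → E)) =
        ∑ k, (Am u k j * w j) • (e k : Fin n → E) := by
      intro j
      rw [Matrix.mulVec_smul, hxe, Finset.smul_sum]
      refine Finset.sum_congr rfl fun k _ => ?_
      rw [smul_smul, mul_comm]
    rw [Finset.sum_congr rfl fun j _ => h1 j, Finset.sum_comm]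
    refine Finset.sum_congr rfl fun k _ => ?_
    rw [← Finset.sum_smul]
    rfl
  · intro W hW hWS hW0
    rw [hκr] at hW ⊢
    exact hA3 W hW hWS hW0
  · intro v hv hvS
    have h1 : ∃ k, Φe.symm v k ≠ 0 := by
      by_contra hcon
      push Not at hcon
      apply hv
      have h2 : Φe.symm v = 0 := funext hcon
      rw [← Φe.apply_symm_apply v, h2, map_zero]
    obtain ⟨k, hk⟩ := h1
    set w : A0 := Φe.symm v k with hw
    have hwS : ∀ s ∈ S, ∃ c : E, s *ᵥ (w : Fin n → E) = c • (w : Fin n → E) := by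
      intro s hs
      obtain ⟨c, hc⟩ := hvS s hs
      refine ⟨c, ?_⟩
      have h2 := congrFun (hsymm s hs v) k
      rw [hc, map_smul] at h2
      exact (congrArg Subtype.val h2).symm
    have h3 := hA3 (Submodule.span E {(w : Fin n → E)}) (by
      rw [Submodule.span_singleton_le_iff_mem]
      exact w.2) (by
      intro s hs z hz
      rw [Submodule.mem_span_singleton] at hz ⊢
      obtain ⟨d, rfl⟩ := hz
      obtain ⟨c, hc⟩ := hwS s hs
      exact ⟨d * c, by rw [Matrix.mulVec_smul, hc, smul_smul]⟩) (by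
      rw [Ne, Submodule.span_singleton_eq_bot]
      exact fun h => hk (Subtype.ext h))
    rw [ha, ← h3]
    exact finrank_span_singleton (fun h => hk (Subtype.ext h))

end algebra

variable {E : Type} [Field E] {n : ℕ} {G : Type} [Group G] {ρ : G →* GL (Fin n) E}
  [TopologicalSpace G] [IsTopologicalGroup G] [TopologicalSpace E]
  [IsTopologicalDivisionRing E] [T2Space E]

omit [T2Space E] in
/-- continuity of a representation from the continuity of its matrices -/
theorem cont_of_val {k : ℕ} {U : Subgroup G} (f : U →* GL (Fin k) E)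
    (h : Continuous fun u => (f u : Matrix (Fin k) (Fin k) E)) : Continuous f := by
  rw [Units.continuous_iff]
  refine ⟨h, ?_⟩
  have h1 : (fun u : U => ((f u)⁻¹ : GL (Fin k) E).val) = fun u => (f u⁻¹ : Matrix _ _ E) := by
    funext u
    rw [← map_inv]
  show Continuous fun u : U => ((f u)⁻¹ : GL (Fin k) E).val
  rw [h1]
  exact h.comp continuous_inv

end Pool.Agent.H313.TD
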