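import Pool.Agent.H313.TD.Alg

/-!
Topology for the tensor decomposition relative to a normal subgroup.
-/

set_option autoImplicit false
set_option linter.all false
set_option maxHeartbeats 4000000

open Matrix Polynomial Module Topology Filter

namespace Pool.Agent.H313.TD

variable {E : Type} [Field E] {n : ℕ} {G : Type} [Group G] {ρ : G →* GL (Fin n) E}
  [TopologicalSpace G] [IsTopologicalGroup G] [TopologicalSpace E]

/-- irreducible on all open subgroups -/
def LieIrr (ρ : G →* GL (Fin n) E) : Prop := ∀ U : Subgroup G, IsOpen (U : Set G) → Irr ρ U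

theorem LieIrr.irr (h : LieIrr ρ) : Irr ρ ⊤ := h ⊤ isOpen_univ

section center

variable [IsTopologicalRing E] [T2Space E] [CharZero E]

theorem idem_trivial (hρ : Continuous (mat ρ)) (hlie : LieIrr ρ)
    {S : Submodule E (Matrix (Fin n) (Fin n) E)} (hS : NA ρ S) {e : Matrix (Fin n) (Fin n) E}
    (he : e ∈ S) (hec : ∀ a ∈ S, e * a = a * e) (hid : IsIdempotentElem e) : e = 0 ∨ e = 1 := by
  classical
  let c : G → Matrix (Fin n) (Fin n) E := fun g => mat ρ g * e * mat ρ g⁻¹
  have hcid : ∀ g, c g * c g = c g := by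
    intro g
    have h1 : c g * c g = mat ρ g * e * (mat ρ g⁻¹ * mat ρ g) * e * mat ρ g⁻¹ := by
      simp only [c, mul_assoc]
    rw [h1, mat_inv_mul, mul_one, mul_assoc (mat ρ g), show e * e = e from hid]
  have hcS : ∀ g, c g ∈ S := fun g => hS.conj g e he
  have hx3 : ∀ g, (e - c g) * (e - c g) * (e - c g) = e - c g := by
    intro g
    have h1 := hcid g
    have h2 := hec _ (hcS g)
    have h3 : e * e = e := hid
    generalize c g = f at *
    have h4 : (e - f) * (e - f) = e - e * f - e * f + f := by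
      have : (e - f) * (e - f) = e * e - e * f - f * e + f * f := by noncomm_ring
      rw [this, h3, h1, ← h2]
    rw [h4]
    have h5 : (e - e * f - e * f + f) * (e - f) =
        e * e - e * f - e * (f * e) + e * (f * f) - e * (f * e) + e * (f * f) + f * e - f * f := by
      noncomm_ring
    rw [h5, h3, h1, ← h2, ← mul_assoc, h3]
    abel
  have hfid : ∀ g, IsIdempotentElem ((e - c g) * (e - c g)) := by
    intro g
    show (e - c g) * (e - c g) * ((e - c g) * (e - c g)) = (e - c g) * (e - c g)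
    rw [← mul_assoc, hx3]
  have hcont : Continuous fun g => ((e - c g) * (e - c g)).trace := by
    have h1 : Continuous c := (hρ.mul continuous_const).mul (hρ.comp continuous_inv)
    have h2 : Continuous fun g => (e - c g) := continuous_const.sub h1
    exact (h2.mul h2).matrix_trace
  have hc1 : c 1 = e := by
    simp only [c, inv_one, mat_one, one_mul, mul_one]
  have hev : ∀ᶠ g in 𝓝 (1 : G), c g = e := by
    let F : Finset E := (Finset.Icc 1 n).image (Nat.cast : ℕ → E)
    have hF : ((e - c 1) * (e - c 1)).trace ∉ (F : Set E) := by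
      rw [hc1, sub_self, zero_mul, Matrix.trace_zero, Finset.mem_coe, Finset.mem_image]
      rintro ⟨k, hk, hk0⟩
      rw [Nat.cast_eq_zero] at hk0
      rw [Finset.mem_Icc] at hk
      omega
    have hopen : IsOpen ((F : Set E)ᶜ) := (F.finite_toSet.isClosed).isOpen_compl
    have h1 : ∀ᶠ g in 𝓝 (1 : G), ((e - c g) * (e - c g)).trace ∈ (F : Set E)ᶜ :=
      hcont.continuousAt.eventually (hopen.mem_nhds hF)
    filter_upwards [h1] with g hg
    obtain ⟨k, hk, hk'⟩ := trace_idem_nat (hfid g)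
    have hk0 : k = 0 := by
      by_contra h0
      apply hg
      rw [hk', Finset.mem_coe, Finset.mem_image]
      exact ⟨k, Finset.mem_Icc.2 ⟨by omega, hk⟩, rfl⟩
    have h2 : (e - c g) * (e - c g) = 0 := trace_idem_eq_zero (hfid g) (by
      rw [hk', hk0, Nat.cast_zero])
    have h3 := hx3 g
    rw [h2, zero_mul] at h3
    exact (sub_eq_zero.1 h3.symm).symm
  let U : Subgroup G :=
    { carrier := {g | e * mat ρ g = mat ρ g * e}
      mul_mem' := by
        intro g h hg hh
        show e * mat ρ (g * h) = mat ρ (g * h) * e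
        have hg' : e * mat ρ g = mat ρ g * e := hg
        have hh' : e * mat ρ h = mat ρ h * e := hh
        rw [mat_mul, ← mul_assoc, hg', mul_assoc, hh', mul_assoc]
      one_mem' := by
        show e * mat ρ 1 = mat ρ 1 * e
        rw [mat_one, mul_one, one_mul]
      inv_mem' := by
        intro g hg
        show e * mat ρ g⁻¹ = mat ρ g⁻¹ * e
        have hg' : e * mat ρ g = mat ρ g * e := hg
        calc e * mat ρ g⁻¹ = mat ρ g⁻¹ * (mat ρ g * e) * mat ρ g⁻¹ := by
              rw [← mul_assoc, mat_inv_mul, one_mul]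
          _ = mat ρ g⁻¹ * e * (mat ρ g * mat ρ g⁻¹) := by
              rw [← hg']
              simp only [mul_assoc]
          _ = _ := by rw [mat_mul_inv, mul_one] }
  have hU : IsOpen (U : Set G) := by
    apply Subgroup.isOpen_of_mem_nhds U (g := (1 : G))
    filter_upwards [hev] with g hg
    show e * mat ρ g = mat ρ g * e
    nth_rewrite 1 [← hg]
    simp only [c]
    rw [mul_assoc, mat_inv_mul, mul_one]
  let W : Submodule E (Fin n → E) :=
    { carrier := {v | e *ᵥ v = v}
      add_mem' := by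
        intro x y hx hy
        show e *ᵥ (x + y) = x + y
        rw [Matrix.mulVec_add, show e *ᵥ x = x from hx, show e *ᵥ y = y from hy]
      zero_mem' := Matrix.mulVec_zero _
      smul_mem' := by
        intro a x hx
        show e *ᵥ (a • x) = a • x
        rw [Matrix.mulVec_smul, show e *ᵥ x = x from hx] }
  rcases hlie U hU W (by
    intro u hu w hw
    show e *ᵥ (mat ρ u *ᵥ w) = mat ρ u *ᵥ w
    have hu' : e * mat ρ u = mat ρ u * e := hu
    rw [Matrix.mulVec_mulVec, hu', ← Matrix.mulVec_mulVec, show e *ᵥ w = w from hw]) with h | h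
  · left
    ext i j
    have h1 : e *ᵥ (Pi.single j 1) ∈ W := by
      show e *ᵥ (e *ᵥ _) = e *ᵥ _
      rw [Matrix.mulVec_mulVec, show e * e = e from hid]
    rw [h, Submodule.mem_bot, Matrix.mulVec_single_one] at h1
    exact congrFun h1 i
  · right
    ext i j
    have h1 : (Pi.single j 1 : Fin n → E) ∈ W := by rw [h]; trivial
    have h2 : e *ᵥ (Pi.single j 1) = Pi.single j 1 := h1
    rw [Matrix.mulVec_single_one] at h2
    have h3 := congrFun h2 i
    rw [Matrix.one_apply, ← Pi.single_apply]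
    exact h3

theorem center_scalar [IsAlgClosed E] (hρ : Continuous (mat ρ)) (hlie : LieIrr ρ)
    {S : Submodule E (Matrix (Fin n) (Fin n) E)} (hS : NA ρ S) {z : Matrix (Fin n) (Fin n) E}
    (hz : z ∈ S) (hzc : ∀ a ∈ S, z * a = a * z) :
    ∃ c : E, z = c • (1 : Matrix (Fin n) (Fin n) E) := by
  rcases Nat.eq_zero_or_pos n with hn0 | hn
  · subst hn0
    exact ⟨0, by ext i; exact i.elim0⟩
  obtain ⟨c, hc⟩ := IsAlgClosed.exists_root z.charpoly (by
    rw [Matrix.charpoly_degree_eq_dim, Fintype.card_fin]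
    exact_mod_cast hn.ne')
  have hnu : ¬ IsUnit (z - c • (1 : Matrix (Fin n) (Fin n) E)) := by
    intro hu
    have h1 : -(z - c • (1 : Matrix (Fin n) (Fin n) E)) = Matrix.scalar (Fin n) c - z := by
      rw [neg_sub, Matrix.smul_one_eq_diagonal]
      rfl
    have h2 := hu.neg
    rw [h1, Matrix.isUnit_iff_isUnit_det] at h2
    apply h2.ne_zero
    rw [← Matrix.eval_charpoly]
    exact hc
  obtain ⟨p, -, hp2, hp3, hp4⟩ := exists_idem z c hnu 1 (by rw [eval_one]; exact one_ne_zero)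
  have hcomm : ∀ q : E[X], ∀ a ∈ S, aeval z q * a = a * aeval z q := by
    intro q a ha
    have h1 : Commute z a := hzc a ha
    induction q using Polynomial.induction_on' with
    | add p q hp hq => rw [map_add, add_mul, mul_add, hp, hq]
    | monomial k c =>
      rw [aeval_monomial, Algebra.algebraMap_eq_smul_one, smul_mul_assoc, one_mul,
        smul_mul_assoc, mul_smul_comm]
      congr 1
      exact h1.pow_left k
  rcases idem_trivial hρ hlie hS (hS.aeval hz p) (hcomm p) hp2 with h | h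
  · exact absurd h hp3
  · have hnil := hp4 h
    refine ⟨c, ?_⟩
    rw [← sub_eq_zero]
    have hmem : z - c • (1 : Matrix (Fin n) (Fin n) E) ∈ S :=
      S.sub_mem hz (S.smul_mem c hS.one)
    refine trace_nondeg hlie.irr hS hmem fun b hb => ?_
    apply trace_nilpotent
    have h1 : Commute (z - c • (1 : Matrix (Fin n) (Fin n) E)) b := by
      show (z - c • 1) * b = b * (z - c • 1)
      rw [sub_mul, mul_sub, hzc b hb, smul_mul_assoc, mul_smul_comm, one_mul, mul_one]
    exact h1.isNilpotent_mul_right hnil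

end center

section proj

/-- the projection to the subalgebra -/
theorem exists_proj {S : Submodule E (Matrix (Fin n) (Fin n) E)}
    (hnd : ∀ a ∈ S, (∀ b ∈ S, (a * b).trace = 0) → a = 0) :
    ∃ L : Matrix (Fin n) (Fin n) E →ₗ[E] Matrix (Fin n) (Fin n) E, (∀ T, L T ∈ S) ∧
      ∀ T, ∀ b ∈ S, (L T * b).trace = (T * b).trace := by
  let Ψ : Matrix (Fin n) (Fin n) E →ₗ[E] Module.Dual E S :=
    LinearMap.mk₂ E (fun T (b : S) => (T * (b : Matrix (Fin n) (Fin n) E)).trace)
      (fun x y b => by rw [add_mul, Matrix.trace_add])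
      (fun c x b => by rw [smul_mul_assoc, Matrix.trace_smul])
      (fun x b b' => by rw [Submodule.coe_add, mul_add, Matrix.trace_add])
      (fun c x b => by rw [Submodule.coe_smul, mul_smul_comm, Matrix.trace_smul])
  let Φ : S →ₗ[E] Module.Dual E S := Ψ.comp S.subtype
  have hinj : Function.Injective Φ := by
    rw [← LinearMap.ker_eq_bot, LinearMap.ker_eq_bot']
    intro a ha
    apply Subtype.ext
    refine hnd a a.2 fun b hb => ?_
    exact LinearMap.congr_fun ha ⟨b, hb⟩
  have hsurj : Function.Surjective Φ :=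
    (LinearMap.injective_iff_surjective_of_finrank_eq_finrank
      (Subspace.dual_finrank_eq (K := E) (V := S)).symm).1 hinj
  let e := LinearEquiv.ofBijective Φ ⟨hinj, hsurj⟩
  refine ⟨S.subtype.comp (e.symm.toLinearMap.comp Ψ), fun T => (e.symm (Ψ T)).2, fun T b hb => ?_⟩
  have h1 : Φ (e.symm (Ψ T)) = Ψ T := e.apply_symm_apply (Ψ T)
  exact LinearMap.congr_fun h1 ⟨b, hb⟩

theorem continuous_lin [IsTopologicalRing E]
    (L : Matrix (Fin n) (Fin n) E →ₗ[E] Matrix (Fin n) (Fin n) E) : Continuous L := by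
  have h1 : ∀ T, L T = ∑ i, ∑ j, T i j • L (Matrix.single i j 1) := by
    intro T
    conv_lhs => rw [Matrix.matrix_eq_sum_single T]
    rw [map_sum]
    refine Finset.sum_congr rfl fun i _ => ?_
    rw [map_sum]
    refine Finset.sum_congr rfl fun j _ => ?_
    rw [← map_smul]
    congr 1
    rw [Matrix.smul_single, smul_eq_mul, mul_one]
  have h2 : (L : Matrix (Fin n) (Fin n) E → Matrix (Fin n) (Fin n) E) =
      fun T => ∑ i, ∑ j, T i j • L (Matrix.single i j 1) := funext h1
  rw [h2]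
  refine continuous_finset_sum _ fun i _ => continuous_finset_sum _ fun j _ => ?_
  exact (continuous_id.matrix_elem i j).smul continuous_const

/-- `x` implements the conjugation with `ρ g` on the subalgebra, with determinant one -/
structure Good (ρ : G →* GL (Fin n) E) (S : Submodule E (Matrix (Fin n) (Fin n) E)) (g : G)
    (x : Matrix (Fin n) (Fin n) E) : Prop where
  mem : x ∈ S
  det : x.det = 1
  comm : ∀ a ∈ S, x * a = mat ρ g * a * mat ρ g⁻¹ * x

variable {S : Submodule E (Matrix (Fin n) (Fin n) E)}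

theorem exists_inv (hS : NA ρ S) {y : Matrix (Fin n) (Fin n) E} (hy : y ∈ S) (hd : y.det = 1) :
    ∃ y' ∈ S, y * y' = 1 ∧ y' * y = 1 := by
  let f : S →ₗ[E] S :=
    { toFun := fun b => ⟨y * b, hS.mul y hy b b.2⟩
      map_add' := fun a b => Subtype.ext (by
        show y * ((a + b : S) : Matrix (Fin n) (Fin n) E) = y * a + y * b
        rw [Submodule.coe_add, mul_add])
      map_smul' := fun c a => Subtype.ext (by
        show y * ((c • a : S) : Matrix (Fin n) (Fin n) E) = c • (y * a)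
        rw [Submodule.coe_smul, mul_smul_comm]) }
  have hu : IsUnit y := by
    rw [Matrix.isUnit_iff_isUnit_det, hd]
    exact isUnit_one
  obtain ⟨v, rfl⟩ := hu
  have hinj : Function.Injective f := by
    intro a b hab
    have h1 : (v : Matrix (Fin n) (Fin n) E) * a = v * b := congrArg Subtype.val hab
    apply Subtype.ext
    have h2 := congrArg (fun x => ((v⁻¹ : (Matrix (Fin n) (Fin n) E)ˣ) :
      Matrix (Fin n) (Fin n) E) * x) h1
    simpa only [← mul_assoc, Units.inv_mul, one_mul] using h2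
  obtain ⟨y', hy'⟩ := (LinearMap.injective_iff_surjective.1 hinj) ⟨1, hS.one⟩
  have h1 : (v : Matrix (Fin n) (Fin n) E) * y' = 1 := congrArg Subtype.val hy'
  exact ⟨y', y'.2, h1, mul_eq_one_comm.1 h1⟩

theorem Good.mul (hS : NA ρ S) {g h : G} {x y : Matrix (Fin n) (Fin n) E} (hx : Good ρ S g x)
    (hy : Good ρ S h y) : Good ρ S (g * h) (x * y) := by
  refine ⟨hS.mul _ hx.mem _ hy.mem, by rw [Matrix.det_mul, hx.det, hy.det, one_mul], ?_⟩
  intro a ha
  rw [mul_assoc, hy.comm a ha, ← mul_assoc, hx.comm _ (hS.conj h a ha), mat_mul,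
    _root_.mul_inv_rev, mat_mul]
  simp only [mul_assoc]

theorem good_self {h : G} (hS : mat ρ h ∈ S) (hd : (mat ρ h).det = 1) : Good ρ S h (mat ρ h) := by
  refine ⟨hS, hd, fun a _ => ?_⟩
  rw [mul_assoc _ (mat ρ h⁻¹), mat_inv_mul, mul_one]

theorem good_one_of {g : G} (hS : NA ρ S) (hg : mat ρ g = 1) : Good ρ S g 1 := by
  refine ⟨hS.one, Matrix.det_one, fun a _ => ?_⟩
  have h1 : mat ρ g⁻¹ = 1 := by
    have h2 := mat_inv_mul ρ g
    rwa [hg, mul_one] at h2
  simp only [hg, h1, one_mul, mul_one]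

theorem good_unique (hS : NA ρ S)
    (hcen : ∀ z ∈ S, (∀ a ∈ S, z * a = a * z) → ∃ c : E, z = c • (1 : Matrix (Fin n) (Fin n) E))
    {g : G} {x y : Matrix (Fin n) (Fin n) E} (hx : Good ρ S g x) (hy : Good ρ S g y) :
    ∃ c : E, c ^ n = 1 ∧ x = c • y := by
  obtain ⟨y', hy'S, hyy', hy'y⟩ := exists_inv hS hy.mem hy.det
  obtain ⟨c, hc⟩ := hcen (y' * x) (hS.mul _ hy'S _ hx.mem) (by
    intro a ha
    have h1 : a * y' = y' * (mat ρ g * a * mat ρ g⁻¹) := by
      have h2 := hy.comm a ha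
      calc a * y' = y' * (y * a) * y' := by rw [← mul_assoc, hy'y, one_mul]
        _ = y' * (mat ρ g * a * mat ρ g⁻¹) * (y * y') := by
            rw [h2]
            simp only [mul_assoc]
        _ = _ := by rw [hyy', mul_one]
    rw [mul_assoc, hx.comm a ha, ← mul_assoc, ← h1, mul_assoc])
  have h1 : x = c • y := by
    have h2 : x = y * (y' * x) := by rw [← mul_assoc, hyy', one_mul]
    rw [h2, hc, mul_smul_comm, mul_one]
  refine ⟨c, ?_, h1⟩
  have h2 := hx.det
  rw [h1, Matrix.det_smul, Fintype.card_fin, hy.det, mul_one] at h2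
  exact h2

variable [IsTopologicalDivisionRing E] [T2Space E] [CharZero E]

/-- near one, the conjugation is implemented near one -/
theorem local_good (hn : 0 < n) (hρ : Continuous (mat ρ)) (hS : NA ρ S)
    (hnd : ∀ a ∈ S, (∀ b ∈ S, (a * b).trace = 0) → a = 0)
    (hroots : ∀ W ∈ 𝓝 (1 : E), ∃ W' ∈ 𝓝 (1 : E), ∀ x ∈ W', ∃ y ∈ W, y ^ n = x)
    (O : Set (Matrix (Fin n) (Fin n) E)) (hO : O ∈ 𝓝 (1 : Matrix (Fin n) (Fin n) E)) :
    ∀ᶠ g in 𝓝 (1 : G), ∃ x ∈ O, Good ρ S g x := by
  obtain ⟨L, hL1, hL2⟩ := exists_proj hnd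
  have hL0 : L 1 = 1 := by
    rw [← sub_eq_zero]
    refine hnd _ (S.sub_mem (hL1 _) hS.one) fun b hb => ?_
    rw [sub_mul, Matrix.trace_sub, hL2 1 b hb, sub_self]
  have hcomm : ∀ g, ∀ a ∈ S, L (mat ρ g) * a = mat ρ g * a * mat ρ g⁻¹ * L (mat ρ g) := by
    intro g a ha
    rw [← sub_eq_zero]
    have hφ := hS.conj g a ha
    refine hnd _ (S.sub_mem (hS.mul _ (hL1 _) _ ha) (hS.mul _ hφ _ (hL1 _))) fun b hb => ?_
    have e1 : (L (mat ρ g) * a * b).trace = (mat ρ g * (a * b)).trace := by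
      rw [mul_assoc, hL2 _ _ (hS.mul _ ha _ hb)]
    have e2 : (mat ρ g * a * mat ρ g⁻¹ * L (mat ρ g) * b).trace =
        (mat ρ g * (b * (mat ρ g * a * mat ρ g⁻¹))).trace := by
      rw [← hL2 _ _ (hS.mul _ hb _ hφ), mul_assoc (mat ρ g * a * mat ρ g⁻¹),
        Matrix.trace_mul_comm, mul_assoc]
    have e3 : (mat ρ g * (b * (mat ρ g * a * mat ρ g⁻¹))).trace =
        (mat ρ g * (a * b)).trace := by
      rw [← mul_assoc, Matrix.trace_mul_comm]
      congr 1
      rw [mul_assoc (mat ρ g * a), ← mul_assoc (mat ρ g⁻¹), mat_inv_mul, one_mul, mul_assoc]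
    rw [sub_mul, Matrix.trace_sub, e1, e2, e3, sub_self]
  let Xf : G → Matrix (Fin n) (Fin n) E := fun g => L (mat ρ g)
  have hXc : Continuous Xf := (continuous_lin L).comp hρ
  have hX1 : Xf 1 = 1 := by
    show L (mat ρ 1) = 1
    rw [mat_one, hL0]
  have hsm : Continuous fun p : E × Matrix (Fin n) (Fin n) E => p.1 • p.2 :=
    continuous_fst.smul continuous_snd
  have h1 : (fun p : E × Matrix (Fin n) (Fin n) E => p.1 • p.2) ⁻¹' O ∈
      𝓝 ((1 : E), (1 : Matrix (Fin n) (Fin n) E)) := by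
    apply hsm.continuousAt.preimage_mem_nhds
    show O ∈ 𝓝 ((1 : E) • (1 : Matrix (Fin n) (Fin n) E))
    rw [one_smul]
    exact hO
  rw [mem_nhds_prod_iff] at h1
  obtain ⟨W, hW, V, hV, hWV⟩ := h1
  obtain ⟨W', hW', hWroot⟩ := hroots W hW
  have hdet : Continuous fun g => (Xf g).det := hXc.matrix_det
  have hdet1 : (Xf 1).det = 1 := by rw [hX1, Matrix.det_one]
  have hd0 : ∀ᶠ g in 𝓝 (1 : G), (Xf g).det ≠ 0 := by
    apply hdet.continuousAt.eventually_ne
    rw [hdet1]
    exact one_ne_zero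
  have hinv : Tendsto (fun g => ((Xf g).det)⁻¹) (𝓝 1) (𝓝 1) := by
    have h2 : ContinuousAt (fun g => ((Xf g).det)⁻¹) 1 := by
      apply ContinuousAt.inv₀ hdet.continuousAt
      rw [hdet1]
      exact one_ne_zero
    have h3 : Tendsto (fun g => ((Xf g).det)⁻¹) (𝓝 1) (𝓝 ((Xf 1).det)⁻¹) := h2
    rwa [hdet1, inv_one] at h3
  have hXV : ∀ᶠ g in 𝓝 (1 : G), Xf g ∈ V := by
    apply hXc.continuousAt.eventually
    rw [hX1]
    exact hV
  filter_upwards [hd0, hinv.eventually hW', hXV] with g hg0 hg1 hg2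
  obtain ⟨s, hs1, hs2⟩ := hWroot _ hg1
  have hmem : s • Xf g ∈ O := hWV (Set.mk_mem_prod hs1 hg2)
  refine ⟨s • Xf g, hmem, S.smul_mem _ (hL1 _), ?_, fun a ha => ?_⟩
  · rw [Matrix.det_smul, Fintype.card_fin, hs2, inv_mul_cancel₀ hg0]
  · rw [smul_mul_assoc, mul_smul_comm]
    congr 1
    exact hcomm g a ha

omit [CharZero E] in
/-- near one, there are no nontrivial roots of unity -/
theorem exists_nhd (hn : 0 < n) : ∃ O ∈ 𝓝 (1 : Matrix (Fin n) (Fin n) E),
    ∀ x ∈ O, ∀ y ∈ O, ∀ w ∈ O, ∀ c : E, c ^ n = 1 → x * y = c • w → c = 1 := by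
  classical
  let i0 : Fin n := ⟨0, hn⟩
  have hfin : {c : E | c ^ n = 1 ∧ c ≠ 1}.Finite := by
    refine (Multiset.finite_toSet (nthRoots n (1 : E))).subset ?_
    rintro c ⟨hc, -⟩
    exact (mem_nthRoots hn).2 hc
  let P : Matrix (Fin n) (Fin n) E × Matrix (Fin n) (Fin n) E × Matrix (Fin n) (Fin n) E → E → Prop :=
    fun p c => (p.1 * p.2.1) i0 i0 ≠ c * p.2.2 i0 i0
  have h1 : ∀ᶠ p in 𝓝 ((1 : Matrix (Fin n) (Fin n) E), (1 : Matrix (Fin n) (Fin n) E),
      (1 : Matrix (Fin n) (Fin n) E)), ∀ c ∈ {c : E | c ^ n = 1 ∧ c ≠ 1}, P p c := by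
    rw [eventually_all_finite hfin]
    rintro c ⟨-, hc⟩
    have h2 : IsOpen {p : Matrix (Fin n) (Fin n) E × Matrix (Fin n) (Fin n) E ×
        Matrix (Fin n) (Fin n) E | (p.1 * p.2.1) i0 i0 ≠ c * p.2.2 i0 i0} := by
      refine isOpen_ne_fun ?_ ?_
      · exact (continuous_fst.mul (continuous_fst.comp continuous_snd)).matrix_elem i0 i0
      · exact continuous_const.mul ((continuous_snd.comp continuous_snd).matrix_elem i0 i0)
    refine h2.mem_nhds ?_
    show (1 * 1 : Matrix (Fin n) (Fin n) E) i0 i0 ≠ c * (1 : Matrix (Fin n) (Fin n) E) i0 i0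
    rw [mul_one, Matrix.one_apply_eq, mul_one]
    exact hc.symm
  rw [nhds_prod_eq, nhds_prod_eq] at h1
  obtain ⟨O1, hO1, O23, hO23, h2⟩ := mem_prod_iff.1 h1
  obtain ⟨O2, hO2, O3, hO3, h3⟩ := mem_prod_iff.1 hO23
  refine ⟨O1 ∩ (O2 ∩ O3), inter_mem hO1 (inter_mem hO2 hO3), ?_⟩
  rintro x hx y hy w hw c hc hxy
  by_contra hne
  have h4 : (x, y, w) ∈ {p | ∀ c ∈ {c : E | c ^ n = 1 ∧ c ≠ 1}, P p c} :=
    h2 ⟨hx.1, h3 ⟨hy.2.1, hw.2.2⟩⟩
  apply h4 c ⟨hc, hne⟩
  show (x * y) i0 i0 = c * w i0 i0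
  rw [hxy, Matrix.smul_apply, smul_eq_mul]

end proj

end Pool.Agent.H313.TD
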